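import Pool.Agent.Lib.SE.CR.Spec
import Pool.Agent.Lib.SE.J.Main

/-!
# SE-CR, module Al: `α` at the points `(x, ζ^f y0 x)` of the cut plane is `Z^f F + C` modulo the lattice
-/

set_option autoImplicit false

open MeasureTheory Filter Topology Module SEJ SEP SEB HC HC.SE

noncomputable section

namespace SECR

namespace Al

variable {T : AV} {m r : ℕ} {s : Fin (r + 1) → ℂ} {b : Fin (r + 1) → ℕ}

theorem slit {z : ℂ} (h : z.im = 0 → 0 < z.re) : z ∈ Complex.slitPlane := by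
  rw [Complex.mem_slitPlane_iff]
  by_cases h0 : z.im = 0
  · exact Or.inl (h h0)
  · exact Or.inr h0

theorem notin {x : ℂ} (hx : x ∈ cutp s) : x ∉ Set.range s := by
  rintro ⟨j, rfl⟩
  exact lt_irrefl _ (hx j rfl)

theorem y0c {x : ℂ} (hx : x ∈ cutp s) : ContinuousAt (y0 m s b) x := by
  unfold y0
  refine tendsto_finsetProd _ fun j _ => ?_
  refine ContinuousAt.cpow (continuousAt_id.sub continuousAt_const) continuousAt_const (slit ?_)
  intro h
  rw [Complex.sub_im] at h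
  have h2 := hx j (by linarith)
  rw [Complex.sub_re]
  linarith

theorem y0pow (hm : m ≠ 0) (x : ℂ) : y0 m s b x ^ m = ∏ j, (x - s j) ^ b j := by
  unfold y0
  rw [← Finset.prod_pow]
  refine Finset.prod_congr rfl fun j _ => ?_
  rw [← Complex.cpow_nat_mul]
  have hm' : (m : ℂ) ≠ 0 := Nat.cast_ne_zero.mpr hm
  rw [mul_div_cancel₀ _ hm', Complex.cpow_natCast]

theorem y0ne {x : ℂ} (hx : x ∉ Set.range s) : y0 m s b x ≠ 0 := by
  unfold y0
  rw [Finset.prod_ne_zero_iff]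
  intro j _ h
  rw [Complex.cpow_eq_zero_iff] at h
  exact hx ⟨j, (sub_eq_zero.mp h.1).symm⟩

theorem ze1 : ze m 1 = Complex.exp (2 * Real.pi * Complex.I / m) := by
  unfold ze
  congr 1
  push_cast
  ring

theorem zepow (hm : m ≠ 0) : ze m 1 ^ m = 1 := by
  rw [ze1]
  exact (Complex.isPrimitiveRoot_exp m hm).pow_eq_one

/-- Two continuous functions with the same `m`-th power and the same value are equal nearby. -/
theorem roots (hm : m ≠ 0) {η Y : ℂ → ℂ} {x₀ : ℂ} (h1 : ContinuousAt η x₀)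
    (h2 : ContinuousAt Y x₀) (h0 : η x₀ = Y x₀) (hne : Y x₀ ≠ 0)
    (h : ∀ᶠ x in 𝓝 x₀, η x ^ m = Y x ^ m) : ∀ᶠ x in 𝓝 x₀, η x = Y x := by
  have hq : ContinuousAt (fun x => η x / Y x) x₀ := h1.div h2 hne
  have hfin : ({z : ℂ | z ^ m = 1} \ {1}).Finite := by
    refine Set.Finite.subset (Polynomial.nthRoots m (1 : ℂ)).toFinset.finite_toSet ?_
    intro z hz
    simp only [Finset.mem_coe, Multiset.mem_toFinset]
    exact (Polynomial.mem_nthRoots (Nat.pos_of_ne_zero hm)).mpr hz.1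
  have hopen : IsOpen ({z : ℂ | z ^ m = 1} \ {1})ᶜ := hfin.isClosed.isOpen_compl
  have hmem : ({z : ℂ | z ^ m = 1} \ {1})ᶜ ∈ 𝓝 (η x₀ / Y x₀) := by
    refine hopen.mem_nhds ?_
    rw [h0, div_self hne]
    simp
  filter_upwards [hq hmem, h, h2.eventually_ne hne] with x hx hx2 hx3
  by_contra hn
  refine hx ⟨?_, ?_⟩
  · change (η x / Y x) ^ m = 1
    rw [div_pow, hx2, div_self (pow_ne_zero _ hx3)]
  · intro he
    rw [Set.mem_singleton_iff, div_eq_one_iff_eq hx3] at he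
    exact hn he

theorem fac (hm : m ≠ 0) (z : ℂ) (hz : z ≠ 0) (u b : ℕ) :
    (z ^ ((b : ℂ) / m)) ^ u / z ^ (1 + u * b / m) =
      z ^ (-((1 - (((u * b) % m : ℕ) : ℝ) / m : ℝ) : ℂ)) := by
  rw [← Complex.cpow_nat_mul, ← Complex.cpow_natCast z (1 + u * b / m), ← Complex.cpow_sub _ _ hz]
  congr 1
  have hm' : (m : ℂ) ≠ 0 := by exact_mod_cast hm
  have h := Nat.div_add_mod (u * b) m
  have h' : (m : ℂ) * ((u * b / m : ℕ) : ℂ) + ((u * b % m : ℕ) : ℂ) = (u : ℂ) * b := by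
    exact_mod_cast h
  push_cast
  field_simp
  linear_combination -h'

theorem frmeq (hm : m ≠ 0) {x : ℂ} (hx : x ∉ Set.range s) (u i : ℕ) :
    x ^ i * y0 m s b x ^ u / ∏ j, (x - s j) ^ (1 + u * b j / m) =
      frm s (mu m b u) (Polynomial.X ^ i) x := by
  have hz : ∀ j, x - s j ≠ 0 := fun j h => hx ⟨j, (sub_eq_zero.mp h).symm⟩
  have h1 : xi s (mu m b u) x = y0 m s b x ^ u / ∏ j, (x - s j) ^ (1 + u * b j / m) := by
    unfold xi y0 mu
    rw [← Finset.prod_pow, ← Finset.prod_div_distrib]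
    refine Finset.prod_congr rfl fun j _ => ?_
    exact (fac hm (x - s j) (hz j) u (b j)).symm
  unfold frm
  rw [h1, Polynomial.eval_pow, Polynomial.eval_X, mul_div_assoc]

theorem equf (N : New T m s b) (hm : m ≠ 0) {x : ℂ} (hx : x ∉ Set.range s) {y : ℂ}
    (hy : y ^ m = ∏ j, (x - s j) ^ b j) (f : ℕ) :
    N.γ.ω x (ze m 1 ^ f * y) = (N.Z ^ f) (N.γ.ω x y) := by
  induction f with
  | zero => simp
  | succ f ih =>
    have hx' : x ∉ N.γ.S := by
      rw [N.S]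
      exact hx
    have h := N.equ x hx' (ze m 1 ^ f * y) (by
      rw [N.P, mul_pow, ← pow_mul, mul_comm f m, pow_mul, zepow hm, one_pow, one_mul, hy, sub_self])
    rw [pow_succ' (ze m 1), mul_assoc, pow_succ' N.Z, Module.End.mul_apply, ← ih, ← h, ze1]

theorem dF (hc : IsCov m s b) (hs : StrictMono fun j => (s j).im) (N : New T m s b) (c : Crd N)
    (f : ℕ) {x : ℂ} (hx : x ∈ cutp s) :
    HasDerivAt (fun x => (N.Z ^ f) (Fv c x)) (N.γ.ω x (ze m 1 ^ f * y0 m s b x)) x := by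
  have hm : m ≠ 0 := by
    have := hc.1
    omega
  have hxr := notin hx
  have h1 : HasDerivAt
      (fun x => fun p : Ix m b => prm (frm s (mu m b (ch p)) (Polynomial.X ^ ex p)) x)
      (fun p : Ix m b => frm s (mu m b (ch p)) (Polynomial.X ^ ex p) x) x := by
    rw [hasDerivAt_pi]
    intro p
    exact xD1 s _ _ ((tN0 s b hc (ch p) p.1.1.2 p.2.1).2.2.2.2.2.2.2.2.2 hs (ex p) p.2.2) x hx
  let A : (Ix m b → ℂ) →L[ℂ] T.V :=
    LinearMap.toContinuousLinearMap ((N.Z ^ f) ∘ₗ c.e.symm.toLinearMap)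
  have h2 := A.hasFDerivAt.comp_hasDerivAt x h1
  have h3 : N.γ.ω x (ze m 1 ^ f * y0 m s b x) =
      A (fun p : Ix m b => frm s (mu m b (ch p)) (Polynomial.X ^ ex p) x) := by
    rw [equf N hm hxr (y0pow hm x) f]
    change _ = (N.Z ^ f) (c.e.symm _)
    congr 1
    rw [LinearEquiv.eq_symm_apply]
    funext p
    rw [c.om x (by rw [N.S]; exact hxr) _ (by rw [N.P, y0pow hm, sub_self]) p]
    exact frmeq hm hxr (ch p) (ex p)
  rw [h3]
  exact h2

/-- The class of the difference modulo the lattice is locally constant. -/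
theorem loc (hC : IsOpen (cutp s)) (hc : IsCov m s b) (hs : StrictMono fun j => (s j).im)
    (N : New T m s b) (c : Crd N) (f : ℕ) {x₀ : ℂ} (hx₀ : x₀ ∈ cutp s) : ∀ᶠ x in 𝓝 x₀,
      (N.γ.α x (ze m 1 ^ f * y0 m s b x) - (N.Z ^ f) (Fv c x)) -
        (N.γ.α x₀ (ze m 1 ^ f * y0 m s b x₀) - (N.Z ^ f) (Fv c x₀)) ∈ T.L := by
  have hm : m ≠ 0 := by
    have := hc.1
    omega
  have hxr := notin hx₀
  have hp : ∀ x, (ze m 1 ^ f * y0 m s b x) ^ m = ∏ j, (x - s j) ^ b j := fun x => by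
    rw [mul_pow, ← pow_mul, mul_comm f m, pow_mul, zepow hm, one_pow, one_mul, y0pow hm]
  obtain ⟨η, g, hη, hηc, hev⟩ := N.γ.map x₀ (by rw [N.S]; exact hxr)
    (ze m 1 ^ f * y0 m s b x₀) (by rw [N.P, hp, sub_self])
  have hne : ze m 1 ^ f * y0 m s b x₀ ≠ 0 :=
    mul_ne_zero (pow_ne_zero _ (Complex.exp_ne_zero _)) (y0ne hxr)
  have heq : ∀ᶠ x in 𝓝 x₀, η x = ze m 1 ^ f * y0 m s b x := by
    refine roots hm hηc (continuousAt_const.mul (y0c hx₀)) hη hne ?_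
    filter_upwards [hev] with x hx
    rw [hp x]
    have h := hx.1
    rw [N.P] at h
    exact sub_eq_zero.mp h
  have hcu : ∀ᶠ x in 𝓝 x₀, x ∈ cutp s := hC.mem_nhds hx₀
  obtain ⟨ε, hε, hb⟩ := Metric.eventually_nhds_iff_ball.mp (hcu.and (heq.and hev))
  have hd : ∀ x ∈ Metric.ball x₀ ε, HasDerivAt (fun x => g x - (N.Z ^ f) (Fv c x)) 0 x := by
    intro x hx
    obtain ⟨h1, h2, _, _, h5⟩ := hb x hx
    have h6 := h5.sub (dF hc hs N c f h1)
    rw [h2, sub_self] at h6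
    exact h6
  have hcst : ∀ x ∈ Metric.ball x₀ ε,
      g x - (N.Z ^ f) (Fv c x) = g x₀ - (N.Z ^ f) (Fv c x₀) := by
    intro x hx
    exact Metric.isOpen_ball.is_const_of_deriv_eq_zero (convex_ball x₀ ε).isPreconnected
      (fun z hz => (hd z hz).differentiableAt.differentiableWithinAt)
      (fun z hz => (hd z hz).deriv) hx (Metric.mem_ball_self hε)
  filter_upwards [Metric.ball_mem_nhds x₀ hε] with x hx
  obtain ⟨_, h2, _, h4, _⟩ := hb x hx
  obtain ⟨_, _, _, k4, _⟩ := hb x₀ (Metric.mem_ball_self hε)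
  rw [h2] at h4
  rw [hη] at k4
  have h6 := T.L.sub_mem h4 k4
  have h7 := hcst x hx
  have h8 : (N.γ.α x (ze m 1 ^ f * y0 m s b x) - (N.Z ^ f) (Fv c x)) -
      (N.γ.α x₀ (ze m 1 ^ f * y0 m s b x₀) - (N.Z ^ f) (Fv c x₀)) =
      (N.γ.α x (ze m 1 ^ f * y0 m s b x) - g x) -
        (N.γ.α x₀ (ze m 1 ^ f * y0 m s b x₀) - g x₀) +
      ((g x - (N.Z ^ f) (Fv c x)) - (g x₀ - (N.Z ^ f) (Fv c x₀))) := by
    abel
  rw [h8, h7, sub_self, add_zero]
  exact h6

end Al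

theorem tAl : S_Al := by
  intro hCut T m r s b hc hs N c f
  obtain ⟨hO, hP⟩ := hCut s
  by_cases hn : (cutp s).Nonempty
  · obtain ⟨x₁, hx₁⟩ := hn
    refine ⟨N.γ.α x₁ (ze m 1 ^ f * y0 m s b x₁) - (N.Z ^ f) (Fv c x₁), ?_⟩
    intro x hx
    refine hP.induction₂ (fun x y =>
      (N.γ.α y (ze m 1 ^ f * y0 m s b y) - (N.Z ^ f) (Fv c y)) -
        (N.γ.α x (ze m 1 ^ f * y0 m s b x) - (N.Z ^ f) (Fv c x)) ∈ T.L) ?_ ?_ ?_ hx₁ hx
    · intro x hx
      exact (Al.loc hO hc hs N c f hx).filter_mono nhdsWithin_le_nhds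
    · intro x y z _ _ _ h1 h2
      have h3 := T.L.add_mem h1 h2
      convert h3 using 1
      abel
    · intro x y _ _ h
      have h3 := T.L.neg_mem h
      convert h3 using 1
      abel
  · exact ⟨0, fun x hx => absurd ⟨x, hx⟩ hn⟩

end SECR
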