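import Pool.Agent.Lib.SE.CR.Spec
import Pool.Agent.Lib.SE.Big.Pnew
import Pool.Agent.Lib.SE.J.N1
import Pool.Agent.Lib.SE.J.N1b

/-!
# PROJECT SE-CR, module Crd: coordinates on the tangent space
-/

set_option autoImplicit false

open MeasureTheory Filter Topology Module SEJ SEP SEB HC HC.SE

noncomputable section

namespace SECR

namespace Crd

open Pnew_aux

lemma ze_pow (m u : ℕ) : SEJ.ze m u = Complex.exp (2 * Real.pi * Complex.I / m) ^ u := by
  rw [SEJ.ze, ← Complex.exp_nat_mul]
  congr 1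
  ring

section

variable {m r : ℕ} {b : Fin (r + 1) → ℕ}

lemma cop (p : Ix m b) : (ch p).Coprime m := p.2.1

lemma lt (p : Ix m b) : ch p < m := p.1.1.2

lemma val_ch (hm : 3 ≤ m) (p : Ix m b) :
    ((ZMod.unitOfCoprime (ch p) (cop p) : (ZMod m)ˣ) : ZMod m).val = ch p := by
  have : NeZero m := ⟨by omega⟩
  rw [ZMod.coe_unitOfCoprime, ZMod.val_natCast_of_lt (lt p)]

/-- the index of `SE/Big/Pnew.lean` -/
def ka (hm : 3 ≤ m) (p : Ix m b) : Idx m r b :=
  ⟨ZMod.unitOfCoprime (ch p) (cop p), ⟨p.1.2, by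
    rw [val_ch hm p]
    exact p.2.2⟩⟩

lemma ka_inj (hm : 3 ≤ m) : Function.Injective (ka (b := b) hm) := by
  intro p q h
  have h1 : ch p = ch q := by
    have := congrArg (fun q : Idx m r b => (q.1 : ZMod m).val) h
    change ((ZMod.unitOfCoprime (ch p) (cop p) : (ZMod m)ˣ) : ZMod m).val =
      ((ZMod.unitOfCoprime (ch q) (cop q) : (ZMod m)ˣ) : ZMod m).val at this
    rwa [val_ch hm, val_ch hm] at this
  have h2 : p.1.2 = q.1.2 := congrArg (fun q : Idx m r b => (q.2.1 : Fin r)) h
  exact Subtype.ext (Prod.ext (Fin.ext h1) h2)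

end

section

variable {T : AV} {m r : ℕ} {s : Fin (r + 1) → ℂ} {b : Fin (r + 1) → ℕ} (N : New T m s b)

lemma li' (hm : 3 ≤ m) : LinearIndependent ℂ
    (fun p : Ix m b => (fun q : Pt N => dff m s b (ch p) (ex p) q.1.1 q.1.2)) := by
  have h1 := (li N hm).comp (ka hm) (ka_inj hm)
  have h2 : (fun p : Ix m b => (fun q : Pt N => dff m s b (ch p) (ex p) q.1.1 q.1.2)) =
      (fun q : Idx m r b => (fun p : Pt N => dff m s b (q.1 : ZMod m).val q.2.1 p.1.1 p.1.2)) ∘
        ka hm := by
    funext p q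
    change dff m s b (ch p) (ex p) q.1.1 q.1.2 =
      dff m s b ((ZMod.unitOfCoprime (ch p) (cop p) : (ZMod m)ˣ) : ZMod m).val (ex p) q.1.1 q.1.2
    rw [val_ch hm p]
  rw [h2]
  exact h1

end

end Crd

open Crd Pnew_aux in
/-- Module Crd: the differentials of the first kind are coordinates on the tangent space. -/
theorem tCrd : S_Crd := by
  intro T m r s b hc N
  have hm : 3 ≤ m := hc.1
  have hdim := N.dim
  have hcard : Fintype.card (Ix m b) = finrank ℂ T.V := by
    have h1 := tN1b tN1 s b hc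
    omega
  -- the forms
  have hB : ∀ p : Ix m b, ∃ B : T.V →ₗ[ℂ] ℂ, ∀ x ∉ N.γ.S, ∀ y, N.γ.P (x, y) = 0 →
      B (N.γ.ω x y) = dff m s b (ch p) (ex p) x y := fun p =>
    N.dif (ch p) p.1.1.2 p.2.1 (ex p) p.2.2
  choose B hB using hB
  -- they are linearly independent on the span of the values of `ω`
  let W : Submodule ℂ T.V := Submodule.span ℂ (Set.range fun p : Pt N => N.γ.ω p.1.1 p.1.2)
  have hWm : ∀ p : Pt N, N.γ.ω p.1.1 p.1.2 ∈ W := fun p => Submodule.subset_span ⟨p, rfl⟩
  have hW : W = ⊤ := by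
    let evW : Dual ℂ W →ₗ[ℂ] (Pt N → ℂ) :=
      { toFun := fun φ p => φ ⟨_, hWm p⟩
        map_add' := fun _ _ => rfl
        map_smul' := fun _ _ => rfl }
    have h1 : LinearIndependent ℂ (fun q : Ix m b => (B q ∘ₗ W.subtype : Dual ℂ W)) := by
      refine LinearIndependent.of_comp evW ?_
      have h2 : (evW ∘ fun q : Ix m b => (B q ∘ₗ W.subtype : Dual ℂ W)) =
          (fun q : Ix m b => (fun p : Pt N => dff m s b (ch q) (ex q) p.1.1 p.1.2)) := by
        funext q p
        exact hB q p.1.1 p.2.1 p.1.2 p.2.2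
      rw [h2]
      exact li' N hm
    have h3 := h1.fintype_card_le_finrank
    rw [Subspace.dual_finrank_eq, hcard] at h3
    exact Submodule.eq_top_of_finrank_eq (le_antisymm (Submodule.finrank_le W) h3)
  have hli : LinearIndependent ℂ B := by
    let evV : Dual ℂ T.V →ₗ[ℂ] (Pt N → ℂ) :=
      { toFun := fun φ p => φ (N.γ.ω p.1.1 p.1.2)
        map_add' := fun _ _ => rfl
        map_smul' := fun _ _ => rfl }
    refine LinearIndependent.of_comp evV ?_
    have h2 : (evV ∘ B) =
        (fun q : Ix m b => (fun p : Pt N => dff m s b (ch q) (ex q) p.1.1 p.1.2)) := by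
      funext q p
      exact hB q p.1.1 p.2.1 p.1.2 p.2.2
    rw [h2]
    exact li' N hm
  -- the coordinates
  have hinj : Function.Injective (LinearMap.pi B) := by
    rw [injective_iff_map_eq_zero]
    intro v hv
    have h1 : Submodule.span ℂ (Set.range B) = ⊤ :=
      hli.span_eq_top_of_card_eq_finrank' (by rw [Subspace.dual_finrank_eq, hcard])
    rw [← Module.forall_dual_apply_eq_zero_iff ℂ v]
    intro φ
    have h2 : φ ∈ Submodule.span ℂ (Set.range B) := h1 ▸ Submodule.mem_top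
    induction h2 using Submodule.span_induction with
    | mem x hx =>
      obtain ⟨p, rfl⟩ := hx
      exact congrFun hv p
    | zero => rfl
    | add x y _ _ hx hy => rw [LinearMap.add_apply, hx, hy, add_zero]
    | smul a x _ hx => rw [LinearMap.smul_apply, hx, smul_zero]
  have hfr : finrank ℂ T.V = finrank ℂ (Ix m b → ℂ) := by
    rw [Module.finrank_fintype_fun_eq_card, hcard]
  refine ⟨⟨LinearMap.linearEquivOfInjective (LinearMap.pi B) hinj hfr, ?_, ?_⟩⟩
  · intro x hx y hy p
    rw [LinearMap.linearEquivOfInjective_apply]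
    exact hB p x hx y hy
  · intro v p
    rw [LinearMap.linearEquivOfInjective_apply, LinearMap.linearEquivOfInjective_apply]
    change B p (N.Z v) = SEJ.ze m (ch p) * B p v
    have h1 : B p ∘ₗ N.Z = SEJ.ze m (ch p) • B p := by
      refine LinearMap.ext_on (s := Set.range fun p : Pt N => N.γ.ω p.1.1 p.1.2) hW ?_
      rintro _ ⟨q, rfl⟩
      change B p (N.Z (N.γ.ω q.1.1 q.1.2)) = SEJ.ze m (ch p) * B p (N.γ.ω q.1.1 q.1.2)
      have hp := (Complex.isPrimitiveRoot_exp m (by omega)).pow_eq_one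
      have h2 : N.γ.P (q.1.1, Complex.exp (2 * Real.pi * Complex.I / m) * q.1.2) = 0 := by
        have h3 : N.γ.P (q.1.1, q.1.2) = 0 := q.2.2
        rw [N.P] at h3 ⊢
        rw [mul_pow, hp, one_mul]
        exact h3
      rw [← N.equ q.1.1 q.2.1 q.1.2 q.2.2, hB p _ q.2.1 _ h2, hB p _ q.2.1 _ q.2.2, ze_pow]
      unfold dff
      rw [mul_pow]
      ring
    exact LinearMap.congr_fun h1 v

end SECR
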