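import Pool.Agent.Lib.SE.CR.Spec
import Pool.Agent.Lib.SE.J.Main

/-!
# SE-CR, module Crs: crossing a ray
-/

set_option autoImplicit false

open MeasureTheory Filter Topology Module SEJ SEP SEB HC HC.SE

noncomputable section

namespace SECR

namespace Crs

lemma ze_pow (m u : ℕ) : ze m u = ze m 1 ^ u := by
  unfold ze
  rw [← Complex.exp_nat_mul]
  congr 1
  push_cast
  ring

lemma ze_pow_m {m : ℕ} (hm : m ≠ 0) : ze m 1 ^ m = 1 := by
  unfold ze
  rw [← Complex.exp_nat_mul]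
  have hm' : (m : ℂ) ≠ 0 := Nat.cast_ne_zero.mpr hm
  have h : (m : ℂ) * (2 * Real.pi * Complex.I * (1 : ℕ) / m) = 2 * Real.pi * Complex.I := by
    field_simp
    simp
  rw [h, Complex.exp_two_pi_mul_I]

lemma cpow_pow {m : ℕ} (hm : m ≠ 0) (z : ℂ) (b : ℕ) :
    (z ^ ((b : ℂ) / m)) ^ m = z ^ b := by
  rw [← Complex.cpow_nat_mul]
  have hm' : (m : ℂ) ≠ 0 := Nat.cast_ne_zero.mpr hm
  rw [mul_div_cancel₀ _ hm', Complex.cpow_natCast]

lemma y0_pow {m r : ℕ} (hm : m ≠ 0) (s : Fin (r + 1) → ℂ) (b : Fin (r + 1) → ℕ)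
    (x : ℂ) : y0 m s b x ^ m = ∏ j, (x - s j) ^ b j := by
  unfold y0
  rw [← Finset.prod_pow]
  exact Finset.prod_congr rfl fun j _ => cpow_pow hm _ _

lemma y0_ne {m r : ℕ} (s : Fin (r + 1) → ℂ) (b : Fin (r + 1) → ℕ) {x : ℂ}
    (hx : x ∉ Set.range s) : y0 m s b x ≠ 0 := by
  unfold y0
  rw [Finset.prod_ne_zero_iff]
  intro j _ h
  rw [Complex.cpow_eq_zero_iff] at h
  exact hx ⟨j, (sub_eq_zero.mp h.1).symm⟩

/-- above the cut -/
lemma up {z c : ℂ} (hre : z.re < 0) (him : 0 ≤ z.im) :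
    z ^ c = (-z) ^ c * Complex.exp (Real.pi * Complex.I * c) := by
  have hz : z ≠ 0 := by
    intro h
    rw [h] at hre
    simp at hre
  have ha : Complex.arg (-z) = Complex.arg z - Real.pi := by
    rw [Complex.arg_neg_eq_arg_sub_pi_iff]
    rcases him.lt_or_eq with h | h
    · exact Or.inl h
    · exact Or.inr ⟨h.symm, hre⟩
  rw [Complex.cpow_def_of_ne_zero hz, Complex.cpow_def_of_ne_zero (neg_ne_zero.mpr hz),
    ← Complex.exp_add]
  congr 1
  rw [Complex.log, Complex.log, norm_neg, ha]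
  push_cast
  ring

/-- below the cut -/
lemma dn {z c : ℂ} (him : z.im < 0) :
    z ^ c = (-z) ^ c * Complex.exp (-(Real.pi * Complex.I * c)) := by
  have hz : z ≠ 0 := by
    intro h
    rw [h] at him
    simp at him
  have ha : Complex.arg (-z) = Complex.arg z + Real.pi := by
    rw [Complex.arg_neg_eq_arg_add_pi_iff]
    exact Or.inl him
  rw [Complex.cpow_def_of_ne_zero hz, Complex.cpow_def_of_ne_zero (neg_ne_zero.mpr hz),
    ← Complex.exp_add]
  congr 1
  rw [Complex.log, Complex.log, norm_neg, ha]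
  push_cast
  ring

lemma away {r : ℕ} (s : Fin (r + 1) → ℂ) {x₀ : ℂ} (hx : x₀ ∉ Set.range s) :
    ∀ᶠ x in 𝓝 x₀, x ∉ Set.range s :=
  (Set.finite_range s).isClosed.isOpen_compl.mem_nhds hx

lemma slit {z : ℂ} (h : z.im = 0 → 0 < z.re) : z ∈ Complex.slitPlane := by
  rw [Complex.mem_slitPlane_iff]
  by_cases h0 : z.im = 0
  · exact Or.inl (h h0)
  · exact Or.inr h0

lemma cont {z s c : ℂ} (h : (z - s).im = 0 → 0 < (z - s).re) :
    ContinuousAt (fun x : ℂ => (x - s) ^ c) z :=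
  ContinuousAt.cpow (continuousAt_id.sub continuousAt_const) continuousAt_const (slit h)

lemma fac {m : ℕ} (hm : m ≠ 0) (z : ℂ) (hz : z ≠ 0) (u b : ℕ) :
    (z ^ ((b : ℂ) / m)) ^ u / z ^ (1 + u * b / m) =
      z ^ (-((1 - (((u * b) % m : ℕ) : ℝ) / m : ℝ) : ℂ)) := by
  rw [← Complex.cpow_nat_mul, ← Complex.cpow_natCast z (1 + u * b / m), ← Complex.cpow_sub _ _ hz]
  congr 1
  have hm' : (m : ℂ) ≠ 0 := by exact_mod_cast hm
  have h := Nat.div_add_mod (u * b) m
  have h' : (m : ℂ) * ((u * b / m : ℕ) : ℂ) + ((u * b % m : ℕ) : ℂ) = (u : ℂ) * b := by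
    exact_mod_cast h
  push_cast
  field_simp
  linear_combination -h'

/-- The forms in terms of the branches. -/
lemma form {m r : ℕ} (hm : m ≠ 0) (s : Fin (r + 1) → ℂ) (b : Fin (r + 1) → ℕ) (x : ℂ)
    (hx : x ∉ Set.range s) (u i : ℕ) (ε : ℂ) :
    x ^ i * (ε * y0 m s b x) ^ u / ∏ j, (x - s j) ^ (1 + u * b j / m) =
      ε ^ u * frm s (mu m b u) (Polynomial.X ^ i) x := by
  have hz : ∀ j, x - s j ≠ 0 := fun j h => hx ⟨j, (sub_eq_zero.mp h).symm⟩
  have h1 : xi s (mu m b u) x = y0 m s b x ^ u / ∏ j, (x - s j) ^ (1 + u * b j / m) := by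
    unfold xi y0 mu
    rw [← Finset.prod_pow, ← Finset.prod_div_distrib]
    refine Finset.prod_congr rfl fun j _ => ?_
    exact (fac hm (x - s j) (hz j) u (b j)).symm
  unfold frm
  rw [h1, mul_pow, Polynomial.eval_pow, Polynomial.eval_X]
  ring

/-- Continuous roots with the same value agree. -/
lemma root_unique {m : ℕ} (hm : m ≠ 0) {η Y : ℂ → ℂ} {x₀ : ℂ} (h1 : ContinuousAt η x₀)
    (h2 : ContinuousAt Y x₀) (h3 : η x₀ = Y x₀) (h4 : Y x₀ ≠ 0)
    (h5 : ∀ᶠ x in 𝓝 x₀, η x ^ m = Y x ^ m) : ∀ᶠ x in 𝓝 x₀, η x = Y x := by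
  have hq : ContinuousAt (fun x => η x / Y x) x₀ := h1.div h2 h4
  have hfin : ({z : ℂ | z ^ m = 1} \ {1}).Finite := by
    refine Set.Finite.subset (Polynomial.nthRootsFinset m (1 : ℂ)).finite_toSet ?_
    intro z hz
    exact (Polynomial.mem_nthRootsFinset (Nat.pos_of_ne_zero hm) 1).2 hz.1
  have hmem : ({z : ℂ | z ^ m = 1} \ {1})ᶜ ∈ 𝓝 (η x₀ / Y x₀) := by
    refine hfin.isClosed.isOpen_compl.mem_nhds ?_
    rw [h3, div_self h4]
    intro h
    exact h.2 rfl
  have hne : ∀ᶠ x in 𝓝 x₀, Y x ≠ 0 := h2.eventually_ne h4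
  filter_upwards [hq.eventually_mem hmem, h5, hne] with x hx1 hx2 hx3
  by_contra hcon
  apply hx1
  refine ⟨?_, ?_⟩
  · change (η x / Y x) ^ m = 1
    rw [div_pow, hx2, div_self (pow_ne_zero _ hx3)]
  · intro h
    have h' : η x / Y x = 1 := h
    rw [div_eq_one_iff_eq hx3] at h'
    exact hcon h'

/-- The continuous branch through a point of the ray. -/
lemma branch {m r : ℕ} {s : Fin (r + 1) → ℂ} {b : Fin (r + 1) → ℕ}
    (hmono : StrictMono fun j => (s j).im) (j : Fin (r + 1)) {x₀ : ℂ} (hj1 : x₀.im = (s j).im)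
    (hj3 : x₀.re < (s j).re) (ε : ℂ) :
    ContinuousAt (fun x => if (s j).im ≤ x.im then ε * y0 m s b x
      else ε * ze m 1 ^ b j * y0 m s b x) x₀ := by
  have hoth : ∀ l, l ≠ j → x₀.im ≠ (s l).im := by
    intro l hl h
    exact hl (hmono.injective (by
      change (s l).im = (s j).im
      rw [← h, hj1]))
  have hc1 : ContinuousAt (fun x : ℂ => ε * (((-(x - s j)) ^ ((b j : ℂ) / m) *
      Complex.exp (Real.pi * Complex.I * ((b j : ℂ) / m))) *
        ∏ l ∈ Finset.univ.erase j, (x - s l) ^ ((b l : ℂ) / m))) x₀ := by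
    refine ContinuousAt.mul continuousAt_const (ContinuousAt.mul (ContinuousAt.mul ?_
      continuousAt_const) ?_)
    · refine ContinuousAt.cpow (continuousAt_id.sub continuousAt_const).neg continuousAt_const
        (slit ?_)
      intro _
      simp only [Complex.neg_re, Complex.sub_re]
      linarith
    · refine tendsto_finsetProd _ fun l hl => ?_
      refine cont ?_
      intro h
      refine absurd ?_ (hoth l (Finset.ne_of_mem_erase hl))
      rw [Complex.sub_im] at h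
      linarith
  refine hc1.congr ?_
  have h2 : ∀ᶠ x : ℂ in 𝓝 x₀, x.re < (s j).re :=
    Complex.continuous_re.continuousAt.eventually (gt_mem_nhds hj3)
  filter_upwards [h2] with x hx
  have hspl : y0 m s b x = (x - s j) ^ ((b j : ℂ) / m) *
      ∏ l ∈ Finset.univ.erase j, (x - s l) ^ ((b l : ℂ) / m) :=
    (Finset.mul_prod_erase _ _ (Finset.mem_univ j)).symm
  split_ifs with him
  · rw [hspl, up (z := x - s j) (by rw [Complex.sub_re]; linarith)
      (by rw [Complex.sub_im]; linarith)]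
  · rw [hspl, dn (z := x - s j) (by rw [Complex.sub_im]; linarith)]
    have he : ze m 1 ^ b j * Complex.exp (-(Real.pi * Complex.I * ((b j : ℂ) / m))) =
        Complex.exp (Real.pi * Complex.I * ((b j : ℂ) / m)) := by
      unfold ze
      rw [← Complex.exp_nat_mul, ← Complex.exp_add]
      congr 1
      push_cast
      ring
    rw [← he]
    ring

lemma e_pow {T : AV} {m r : ℕ} {s : Fin (r + 1) → ℂ} {b : Fin (r + 1) → ℕ} {N : New T m s b}
    (c : Crd N) (n : ℕ) (v : T.V) (p : Ix m b) :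
    c.e ((N.Z ^ n) v) p = ze m (ch p) ^ n * c.e v p := by
  induction n with
  | zero => simp
  | succ n ih =>
    rw [pow_succ', Module.End.mul_apply, c.Z, ih, pow_succ']
    ring

end Crs

open Crs in
theorem tCrs : S_Crs := by
  intro T m r s b hc hs N c f j C C' hC hC'
  have hm : m ≠ 0 := by
    have := hc.1
    omega
  obtain ⟨x₀, hx₀d⟩ : ∃ x₀ : ℂ, x₀ = s j - 1 := ⟨_, rfl⟩
  have hj1 : x₀.im = (s j).im := by simp [hx₀d]
  have hj3 : x₀.re < (s j).re := by simp [hx₀d]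
  have hoth : ∀ l, l ≠ j → x₀.im ≠ (s l).im := by
    intro l hl h
    exact hl (hs.injective (by
      change (s l).im = (s j).im
      rw [← h, hj1]))
  have hx₀ : x₀ ∉ Set.range s := by
    rintro ⟨l, hl⟩
    by_cases h : l = j
    · rw [h] at hl
      rw [← hl] at hj3
      exact lt_irrefl _ hj3
    · exact hoth l h (by rw [← hl])
  have hx₀S : x₀ ∉ N.γ.S := by
    rw [N.S]
    exact hx₀
  have hze : ∀ u : ℕ, ze m u ≠ 0 := fun u => Complex.exp_ne_zero _
  have hzz : ∀ n u : ℕ, (ze m 1 ^ n) ^ u = ze m u ^ n := by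
    intro n u
    rw [ze_pow m u, ← pow_mul, ← pow_mul, mul_comm]
  have hzm : ∀ n : ℕ, (ze m 1 ^ n) ^ m = 1 := by
    intro n
    rw [← pow_mul, mul_comm, pow_mul, ze_pow_m hm, one_pow]
  have hP₀ : N.γ.P (x₀, ze m 1 ^ f * y0 m s b x₀) = 0 := by
    rw [N.P, mul_pow, hzm, one_mul, y0_pow hm, sub_self]
  obtain ⟨η, g, hη1, hη2, hη3⟩ := N.γ.map x₀ hx₀S _ hP₀
  have hYc := branch (m := m) (b := b) hs j hj1 hj3 (ze m 1 ^ f)
  obtain ⟨Y, hY⟩ : ∃ Y : ℂ → ℂ, Y = fun x => if (s j).im ≤ x.im then ze m 1 ^ f * y0 m s b x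
    else ze m 1 ^ f * ze m 1 ^ b j * y0 m s b x := ⟨_, rfl⟩
  rw [← hY] at hYc
  have hY1 : ∀ x : ℂ, (s j).im ≤ x.im → Y x = ze m 1 ^ f * y0 m s b x := by
    intro x hx
    rw [hY]
    exact if_pos hx
  have hY2 : ∀ x : ℂ, ¬ (s j).im ≤ x.im → Y x = ze m 1 ^ (f + b j) * y0 m s b x := by
    intro x hx
    rw [hY, pow_add]
    exact if_neg hx
  have hYm : ∀ x, Y x ^ m = ∏ l, (x - s l) ^ b l := by
    intro x
    by_cases hx : (s j).im ≤ x.im
    · rw [hY1 x hx, mul_pow, hzm, one_mul, y0_pow hm]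
    · rw [hY2 x hx, mul_pow, hzm, one_mul, y0_pow hm]
  have hY0 : Y x₀ = ze m 1 ^ f * y0 m s b x₀ := hY1 x₀ hj1.ge
  have hηY : ∀ᶠ x in 𝓝 x₀, η x = Y x := by
    refine root_unique hm hη2 hYc (by rw [hη1, hY0]) ?_ ?_
    · rw [hY0]
      exact mul_ne_zero (pow_ne_zero _ (hze 1)) (y0_ne s b hx₀)
    · filter_upwards [hη3] with x hx
      rw [hYm]
      have h := hx.1
      rw [N.P] at h
      exact sub_eq_zero.1 h
  have hgood : ∀ p : Ix m b, Good s (mu m b (ch p)) (Polynomial.X ^ ex p) := fun p =>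
    (tN0 s b hc (ch p) p.1.1.2 p.2.1).2.2.2.2.2.2.2.2.2 hs (ex p) p.2.2
  have hlam : ∀ p : Ix m b, lam (mu m b (ch p)) j = (ze m (ch p) ^ b j)⁻¹ := fun p =>
    (tN0 s b hc (ch p) p.1.1.2 p.2.1).2.1 j
  have hG := fun p : Ix m b => xN11 s _ _ (hgood p) j x₀ hj1 hj3
  choose G hG using hG
  have hGall := eventually_all.mpr hG
  have hoth' : ∀ᶠ x : ℂ in 𝓝 x₀, ∀ l, l ≠ j → x.im ≠ (s l).im := by
    rw [eventually_all]
    intro l
    by_cases h : l = j
    · exact Eventually.of_forall fun x h' => absurd h h'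
    · have h2 : ∀ᶠ x : ℂ in 𝓝 x₀, x.im ≠ (s l).im :=
        Complex.continuous_im.continuousAt.eventually (isOpen_ne.mem_nhds (hoth l h))
      filter_upwards [h2] with x hx _ using hx
  obtain ⟨ρ, hρ, hball⟩ := Metric.eventually_nhds_iff_ball.1
    ((away s hx₀).and (hoth'.and (hη3.and (hηY.and hGall))))
  -- the constant
  have hder : ∀ p : Ix m b, ∀ x ∈ Metric.ball x₀ ρ,
      HasDerivAt (fun x => c.e (g x) p - ze m (ch p) ^ f * G p x) 0 x := by
    intro p x hx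
    obtain ⟨h1, h2, ⟨h3, h4, h5⟩, h6, h7⟩ := hball x hx
    have h1' : x ∉ N.γ.S := by
      rw [N.S]
      exact h1
    let φ : T.V →L[ℂ] ℂ := LinearMap.toContinuousLinearMap
      ((LinearMap.proj p : (Ix m b → ℂ) →ₗ[ℂ] ℂ) ∘ₗ c.e.toLinearMap)
    have h8 : HasDerivAt (fun x => c.e (g x) p) (c.e (N.γ.ω x (η x)) p) x :=
      φ.hasFDerivAt.comp_hasDerivAt x h5
    rw [h6] at h8 h3
    rw [c.om x h1' (Y x) h3 p] at h8
    have h9 := h7 p
    by_cases him : (s j).im ≤ x.im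
    · rw [if_pos him] at h9
      rw [hY1 x him, form hm s b x h1, hzz] at h8
      have h10 := h8.sub (h9.2.const_mul (ze m (ch p) ^ f))
      rw [sub_self] at h10
      exact h10
    · rw [if_neg him, hlam p, inv_inv] at h9
      rw [hY2 x him, form hm s b x h1, hzz] at h8
      have h10 := h8.sub (h9.2.const_mul (ze m (ch p) ^ f))
      rw [pow_add, mul_assoc, sub_self] at h10
      exact h10
  have hconst : ∀ p : Ix m b, ∀ x ∈ Metric.ball x₀ ρ, ∀ y ∈ Metric.ball x₀ ρ,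
      c.e (g x) p - ze m (ch p) ^ f * G p x = c.e (g y) p - ze m (ch p) ^ f * G p y := by
    intro p x hx y hy
    exact Metric.isOpen_ball.is_const_of_deriv_eq_zero (convex_ball x₀ ρ).isPreconnected
      (f := fun x => c.e (g x) p - ze m (ch p) ^ f * G p x)
      (fun z hz => (hder p z hz).differentiableAt.differentiableWithinAt)
      (fun z hz => (hder p z hz).deriv) hx hy
  have hcut : ∀ x ∈ Metric.ball x₀ ρ, x.im ≠ (s j).im → x ∈ cutp s := by
    intro x hx hxj l hl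
    by_cases h : l = j
    · rw [h] at hl
      exact absurd hl hxj
    · exact absurd hl ((hball x hx).2.1 l h)
  -- the points above and below
  obtain ⟨xu, hxu⟩ : ∃ x : ℂ, x = x₀ + ((ρ / 2 : ℝ) : ℂ) * Complex.I := ⟨_, rfl⟩
  obtain ⟨xd, hxd⟩ : ∃ x : ℂ, x = x₀ - ((ρ / 2 : ℝ) : ℂ) * Complex.I := ⟨_, rfl⟩
  have hnorm : ‖((ρ / 2 : ℝ) : ℂ) * Complex.I‖ < ρ := by
    rw [norm_mul, Complex.norm_I, mul_one, Complex.norm_real, Real.norm_eq_abs,
      abs_of_pos (by linarith)]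
    linarith
  have hxuB : xu ∈ Metric.ball x₀ ρ := by
    rw [mem_ball_iff_norm, hxu, add_sub_cancel_left]
    exact hnorm
  have hxdB : xd ∈ Metric.ball x₀ ρ := by
    rw [mem_ball_iff_norm, hxd, sub_sub_cancel_left, norm_neg]
    exact hnorm
  have hxui : xu.im = (s j).im + ρ / 2 := by
    rw [hxu, ← hj1]
    simp
  have hxdi : xd.im = (s j).im - ρ / 2 := by
    rw [hxd, ← hj1]
    simp
  have hxuj : (s j).im ≤ xu.im := by
    rw [hxui]
    linarith
  have hxdj : ¬ (s j).im ≤ xd.im := by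
    rw [hxdi]
    intro h
    linarith
  have hcu : xu ∈ cutp s := hcut xu hxuB (by
    rw [hxui]
    intro h
    linarith)
  have hcd : xd ∈ cutp s := hcut xd hxdB (by
    rw [hxdi]
    intro h
    linarith)
  have a1 := hC xu hcu
  have a2 := (hball xu hxuB).2.2.1.2.1
  rw [(hball xu hxuB).2.2.2.1, hY1 xu hxuj] at a2
  have a3 := hC' xd hcd
  have a4 := (hball xd hxdB).2.2.1.2.1
  rw [(hball xd hxdB).2.2.2.1, hY2 xd hxdj] at a4
  have key : g xd - (N.Z ^ (f + b j)) (Fv c xd) - (N.Z ^ f) (Pv c j - (N.Z ^ b j) (Pv c j)) =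
      g xu - (N.Z ^ f) (Fv c xu) := by
    apply c.e.injective
    funext p
    have b1 := hconst p xd hxdB xu hxuB
    have b2 := (hball xu hxuB).2.2.2.2 p
    have b3 := (hball xd hxdB).2.2.2.2 p
    rw [if_pos hxuj] at b2
    rw [if_neg hxdj, hlam p] at b3
    have hz : ze m (ch p) ^ b j ≠ 0 := pow_ne_zero _ (hze _)
    have b4 : G p xd = ze m (ch p) ^ b j * prm (frm s (mu m b (ch p)) (Polynomial.X ^ ex p)) xd +
        (1 - ze m (ch p) ^ b j) * Pp s (frm s (mu m b (ch p)) (Polynomial.X ^ ex p)) j := by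
      have b5 := b3.1
      field_simp at b5
      linear_combination b5
    have d1 : c.e (Fv c xd) p = prm (frm s (mu m b (ch p)) (Polynomial.X ^ ex p)) xd := by
      unfold Fv
      rw [LinearEquiv.apply_symm_apply]
    have d2 : c.e (Fv c xu) p = prm (frm s (mu m b (ch p)) (Polynomial.X ^ ex p)) xu := by
      unfold Fv
      rw [LinearEquiv.apply_symm_apply]
    have d3 : c.e (Pv c j) p = Pp s (frm s (mu m b (ch p)) (Polynomial.X ^ ex p)) j := by
      unfold Pv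
      rw [LinearEquiv.apply_symm_apply]
    simp only [map_sub, Pi.sub_apply, e_pow]
    rw [d1, d2, d3]
    rw [b4, b2.1] at b1
    rw [pow_add]
    linear_combination b1
  have e1 : C' - C - (N.Z ^ f) (Pv c j - (N.Z ^ b j) (Pv c j)) =
      ((N.γ.α xd (ze m 1 ^ (f + b j) * y0 m s b xd) - g xd) -
        (N.γ.α xd (ze m 1 ^ (f + b j) * y0 m s b xd) - (N.Z ^ (f + b j)) (Fv c xd) - C')) -
      ((N.γ.α xu (ze m 1 ^ f * y0 m s b xu) - g xu) -
        (N.γ.α xu (ze m 1 ^ f * y0 m s b xu) - (N.Z ^ f) (Fv c xu) - C)) := by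
    have e2 : g xd = (N.Z ^ (f + b j)) (Fv c xd) + (N.Z ^ f) (Pv c j - (N.Z ^ b j) (Pv c j)) +
        (g xu - (N.Z ^ f) (Fv c xu)) := by
      rw [← key]
      abel
    rw [e2]
    abel
  rw [e1]
  exact T.L.sub_mem (T.L.sub_mem a4 a3) (T.L.sub_mem a2 a1)

end SECR

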