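import Pool.Agent.Lib.SE.CR.Spec

/-!
# PROJECT SE-CR: module EndA, all complex branch points (equal exponents)
-/

set_option autoImplicit false

open MeasureTheory Filter Topology Module SEJ SEP SEB HC HC.SE

noncomputable section

namespace SECR

namespace EndA

variable {m r : ℕ}

/-- `New` for the permuted branch points. -/
def newPerm {T : AV} {s : Fin (r + 1) → ℂ} (σ : Equiv.Perm (Fin (r + 1)))
    (N : New T m s (fun _ => 1)) : New T m (s ∘ σ) (fun _ => 1) where
  Z := N.Z
  γ := N.γ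
  lat := N.lat
  cyc := N.cyc
  dim := N.dim
  P := fun x y => by
    rw [N.P x y]
    congr 1
    exact (Equiv.prod_comp σ fun j => (x - s j) ^ 1).symm
  S := by
    rw [N.S]
    exact (σ.surjective.range_comp s).symm
  equ := N.equ
  dif := fun u hu huc i hi => by
    obtain ⟨B, hB⟩ := N.dif u hu huc i hi
    refine ⟨B, fun x hx y hy => ?_⟩
    rw [hB x hx y hy]
    congr 1
    exact (Equiv.prod_comp σ fun j => (x - s j) ^ (1 + u * 1 / m)).symm

theorem exc_perm {s : Fin (r + 1) → ℂ} (σ : Equiv.Perm (Fin (r + 1)))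
    (h : Exc m r (fun _ => 1) s) : Exc m r (fun _ => 1) (s ∘ σ) := by
  intro hall
  apply h
  intro T hc N D hD
  exact hall T ⟨hc.1, hc.2.1.comp σ.injective, hc.2.2.1, hc.2.2.2.1, hc.2.2.2.2⟩ (newPerm σ N) D hD

/-- The difference of two imaginary parts. -/
def dIm (i j : Fin (r + 1)) : (Fin (r + 1) → ℂ) →L[ℝ] ℝ :=
  Complex.imCLM.comp (ContinuousLinearMap.proj (R := ℝ) i) -
    Complex.imCLM.comp (ContinuousLinearMap.proj (R := ℝ) j)

theorem dIm_apply (i j : Fin (r + 1)) (s : Fin (r + 1) → ℂ) :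
    dIm i j s = (s i).im - (s j).im := rfl

theorem dIm_surj {i j : Fin (r + 1)} (hij : i ≠ j) :
    Function.Surjective (dIm i j : (Fin (r + 1) → ℂ) → ℝ) := by
  intro y
  refine ⟨Function.update 0 i ((y : ℂ) * Complex.I), ?_⟩
  rw [dIm_apply, Function.update_self, Function.update_of_ne hij.symm]
  simp

theorem meagre_zero : IsMeagre ({0} : Set ℝ) := by
  apply IsNowhereDense.isMeagre
  rw [(isClosed_singleton).isNowhereDense_iff]
  exact interior_singleton 0

theorem meagre_eq {i j : Fin (r + 1)} (hij : i ≠ j) :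
    IsMeagre {s : Fin (r + 1) → ℂ | (s i).im = (s j).im} := by
  have h1 : IsMeagre ((dIm i j : (Fin (r + 1) → ℂ) → ℝ) ⁻¹' {0}) :=
    meagre_zero.preimage_of_isOpenMap (dIm i j).continuous
      ((dIm i j).isOpenMap (dIm_surj hij))
  refine h1.mono ?_
  intro s hs
  have hs' : (s i).im = (s j).im := hs
  change dIm i j s = 0
  rw [dIm_apply, hs', sub_self]

theorem meagre_perm (σ : Equiv.Perm (Fin (r + 1))) {A : Set (Fin (r + 1) → ℂ)} (hA : IsMeagre A) :
    IsMeagre ((fun s : Fin (r + 1) → ℂ => s ∘ σ) ⁻¹' A) := by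
  let e : (Fin (r + 1) → ℂ) ≃ₜ (Fin (r + 1) → ℂ) :=
    (Homeomorph.piCongrLeft (Y := fun _ : Fin (r + 1) => ℂ) σ).symm
  have he : (fun s : Fin (r + 1) → ℂ => s ∘ σ) = e := by
    funext s
    rfl
  rw [he]
  exact hA.preimage_of_isOpenMap e.continuous e.isOpenMap

end EndA

open EndA in
theorem tEndA : S_EndA := by
  intro m r h
  have h1 : IsMeagre (⋃ p : {p : Fin (r + 1) × Fin (r + 1) // p.1 ≠ p.2},
      {s : Fin (r + 1) → ℂ | (s p.1.1).im = (s p.1.2).im}) :=
    isMeagre_iUnion fun p => meagre_eq p.2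
  have h2 : IsMeagre (⋃ σ : Equiv.Perm (Fin (r + 1)), (fun s : Fin (r + 1) → ℂ => s ∘ σ) ⁻¹'
      {s : Fin (r + 1) → ℂ | (StrictMono fun j => (s j).im) ∧ Exc m r (fun _ => 1) s}) :=
    isMeagre_iUnion fun σ => meagre_perm σ h
  refine (h1.union h2).mono ?_
  intro s hs
  by_cases hinj : Function.Injective fun j => (s j).im
  · right
    refine Set.mem_iUnion.2 ⟨Tuple.sort fun j => (s j).im, ?_, exc_perm _ hs⟩
    exact (Tuple.monotone_sort fun j => (s j).im).strictMono_of_injective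
      (hinj.comp (Tuple.sort fun j => (s j).im).injective)
  · left
    simp only [Function.Injective] at hinj
    push Not at hinj
    obtain ⟨i, j, hij, hne⟩ := hinj
    exact Set.mem_iUnion.2 ⟨⟨(i, j), hne⟩, hij⟩

end SECR
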