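import Pool.Agent.Lib.SE.CR.Spec
import Pool.Agent.Lib.SE.J.Main
import Pool.Agent.Lib.SE.Big.Asm3
import Pool.Agent.Lib.SE.Big.Per
import Pool.Agent.Lib.SE.Big.Pnew
import Pool.Agent.Lib.SE.Big.Sg
import Pool.Agent.Lib.SE.Big.Bas
import Pool.Agent.Lib.SE.Big.Pj

/-!
# PROJECT SE-CR: complex branch points outside a meagre set: the commutant of `Z` is `ℚ(Z)`
-/

set_option autoImplicit false

open MeasureTheory Filter Topology Module SEJ SEP SEB HC HC.SE

noncomputable section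

namespace SECR

namespace EndC

/-- The differences of the values of the primitive in terms of the periods. -/
theorem pp_sub {r : ℕ} {s : Fin (r + 1) → ℂ} {μ : Fin (r + 1) → ℝ} {P : Polynomial ℂ}
    (h : Good s μ P) (k : Fin r) :
    Pp s (frm s μ P) k.castSucc - Pp s (frm s μ P) k.succ =
      Tp s (frm s μ P) k.castSucc - lam μ k.succ * Tp s (frm s μ P) k.succ := by
  have hI : Finset.Ioi k.castSucc = insert k.succ (Finset.Ioi k.succ) := by
    ext j
    rw [Finset.mem_insert, Finset.mem_Ioi, Finset.mem_Ioi]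
    constructor
    · intro hj
      have h1 : (k.castSucc : ℕ) < j := hj
      rw [Fin.val_castSucc] at h1
      by_cases h2 : j = k.succ
      · exact Or.inl h2
      · refine Or.inr ?_
        rw [Fin.lt_def, Fin.val_succ]
        have h3 : (j : ℕ) ≠ (k : ℕ) + 1 := fun h4 => h2 (Fin.ext (by rw [h4, Fin.val_succ]))
        omega
    · intro hj
      rw [Fin.lt_def, Fin.val_castSucc]
      rcases hj with hj | hj
      · rw [hj, Fin.val_succ]
        omega
      · rw [Fin.lt_def, Fin.val_succ] at hj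
        omega
  rw [xE2 s μ P h k.castSucc, xE2 s μ P h k.succ, hI, Finset.sum_insert (by simp)]
  ring

theorem frm_one {k : ℕ} (s : Fin k → ℂ) (μ : Fin k → ℝ) :
    frm s μ (Polynomial.X ^ 0) = xi s μ := by
  funext x
  rw [frm, pow_zero, Polynomial.eval_one, one_mul]

theorem ze_pow (m u : ℕ) : Complex.exp (2 * Real.pi * Complex.I / m) ^ u = ze m u := by
  rw [ze, ← Complex.exp_nat_mul]
  congr 1
  ring

theorem ze_alg {m : ℕ} (hm : 0 < m) (u : ℕ) : IsAlgebraic ℚ (ze m u) := by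
  refine IsAlgebraic.of_pow hm ?_
  have h1 : ze m u ^ m = 1 := by
    have hm' : (m : ℂ) ≠ 0 := by exact_mod_cast hm.ne'
    rw [ze, ← Complex.exp_nat_mul, Complex.exp_eq_one_iff]
    refine ⟨u, ?_⟩
    push_cast
    field_simp
  rw [h1]
  exact isAlgebraic_one

/-- The exponents `μ_j = 1 - {u b_j / m}`. -/
theorem mu_facts {m r : ℕ} {b : Fin (r + 1) → ℕ} (hm : 3 ≤ m) (hb : ∀ j, ¬ m ∣ b j)
    (hbs : ¬ m ∣ ∑ j, b j) {u : ℕ} (huc : u.Coprime m) (hu1 : sg m r b u = 1) :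
    Mu (mu m b u) ∧ ∀ n : ℤ, ∑ j, mu m b u j ≠ n := by
  have hm0 : (0 : ℝ) < m := by exact_mod_cast (by omega : 0 < m)
  have hlt : ∀ j, (u * b j) % m < m := fun j => Nat.mod_lt _ (by omega)
  have hpos : ∀ j, 1 ≤ (u * b j) % m := fun j => mod_pos huc (hb j)
  have hsum : ∑ j, mu m b u j = ((r : ℝ) + 1) - ((∑ j, (u * b j) % m : ℕ) : ℝ) / m := by
    simp only [mu, Finset.sum_sub_distrib, Finset.sum_const, Finset.card_univ, Fintype.card_fin,
      nsmul_eq_mul, mul_one, ← Finset.sum_div]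
    push_cast
    ring
  refine ⟨⟨fun j => ?_, fun j => ?_, ?_⟩, ?_⟩
  · rw [mu, sub_pos, div_lt_one hm0]
    exact_mod_cast hlt j
  · rw [mu, sub_lt_self_iff]
    exact div_pos (by exact_mod_cast hpos j) hm0
  · have h1 := sum_lt_of_sg hu1
    rw [mul_zero, zero_add] at h1
    have h2 : ((∑ j, (u * b j) % m : ℕ) : ℝ) < m * r := by exact_mod_cast h1
    have h3 : ((∑ j, (u * b j) % m : ℕ) : ℝ) / m < r := by
      rw [div_lt_iff₀ hm0]
      linarith
    rw [hsum]
    linarith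
  · intro n h
    rw [hsum] at h
    have h1 : ((∑ j, (u * b j) % m : ℕ) : ℝ) = ((r : ℝ) + 1 - n) * m := by
      rw [← h]
      field_simp
      ring
    have h2 : (m : ℤ) ∣ ((∑ j, (u * b j) % m : ℕ) : ℤ) := by
      generalize (∑ j, (u * b j) % m) = N at h1
      refine ⟨(r : ℤ) + 1 - n, ?_⟩
      have : ((N : ℤ) : ℝ) = (((m : ℤ) * ((r : ℤ) + 1 - n) : ℤ) : ℝ) := by
        push_cast
        rw [h1]
        ring
      exact_mod_cast this
    have h3 : m ∣ ∑ j, (u * b j) % m := by exact_mod_cast h2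
    have h4 : u * ∑ j, b j = m * ∑ j : Fin (r + 1), u * b j / m + ∑ j, (u * b j) % m := by
      rw [Finset.mul_sum, Finset.mul_sum, ← Finset.sum_add_distrib]
      exact Finset.sum_congr rfl fun j _ => (Nat.div_add_mod (u * b j) m).symm
    have h5 : m ∣ u * ∑ j, b j := by
      rw [h4]
      exact dvd_add (dvd_mul_right _ _) h3
    exact hbs (huc.symm.dvd_of_dvd_mul_left h5)

end EndC

/-- **EndC** (the hypotheses `S_Cut`, `S_Al`, `S_Crs`, `S_Idt` are those of `S_Lv`, `S_Ind`). -/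
theorem tEndC : S_Cut → S_Al → S_Crs → S_Idt → S_EndC := by
  intro hCut hAl hCrs hIdt hCrd hLv hInd m r b hr hu
  obtain ⟨u, hum, huc, hu1⟩ := hu
  by_cases hcov : 3 ≤ m ∧ (∀ j, ¬ m ∣ b j) ∧ ¬ m ∣ ∑ j, b j ∧
    ∀ d, d ∣ m → (∀ j, d ∣ b j) → d = 1
  · obtain ⟨hm, hb, hbs, hgcd⟩ := hcov
    obtain ⟨hMu, hint⟩ := EndC.mu_facts hm hb hbs huc hu1
    have hc₀ : IsCov m (fun j : Fin (r + 1) => ((j : ℕ) : ℂ)) b :=
      ⟨hm, fun i j hij => Fin.ext (Nat.cast_injective (R := ℂ) hij), hb, hbs, hgcd⟩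
    have hN0 := tN0 (fun j : Fin (r + 1) => ((j : ℕ) : ℂ)) b hc₀ u hum huc
    have hlam : ∀ j, lam (mu m b u) j = (ze m u ^ b j)⁻¹ := hN0.2.1
    have hne : ∀ j, ze m u ^ b j ≠ 1 := fun j h => hN0.2.2.1 j (by rw [hlam, h, inv_one])
    have hzal : ∀ j, IsAlgebraic ℚ (ze m u ^ b j) := fun j =>
      (EndC.ze_alg (by omega) u).pow _
    have halg : ∀ j, IsAlgebraic ℚ (lam (mu m b u) j) := fun j => by
      rw [hlam]
      exact (hzal j).inv
    refine (hInd hIdt (mu m b u) hMu hint halg).mono ?_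
    rintro s ⟨hs, hex⟩
    refine ⟨hs, fun hA => hex ?_⟩
    intro T hc N D hDZ
    have hp : ∀ u : (ZMod m)ˣ, D.p u = sg m r b (u : ZMod m).val :=
      tPnew tSg (tBas tPj) T m r s b hc N D hDZ
    obtain ⟨v, hv⟩ := exists_unit hum huc
    have hpv : D.p v = 1 := by rw [hp, hv, hu1]
    obtain ⟨c⟩ := hCrd hc N
    have hr0 : 0 < r := by omega
    let p₀ : Ix m b := ⟨(⟨u, hum⟩, ⟨0, hr0⟩), huc, sum_lt_of_sg hu1⟩
    have hch : ch p₀ = u := rfl
    have hex0 : ex p₀ = 0 := rfl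
    let B : T.V →ₗ[ℂ] ℂ := (LinearMap.proj p₀) ∘ₗ c.e.toLinearMap
    have hB : ∀ w, B w = c.e w p₀ := fun w => rfl
    have hBZ : ∀ w, B (N.Z w) = ze m u * B w := fun w => by
      rw [hB, hB, c.Z w p₀, hch]
    have hG : Good s (mu m b u) (Polynomial.X ^ 0) :=
      (tN0 s b hc u hum huc).2.2.2.2.2.2.2.2.2 hs 0 (sum_lt_of_sg hu1)
    have hw := fun k : Fin r => hLv hCut hAl hCrs hc hs N c k.castSucc k.succ
    choose w hwL hwe using hw
    have hAI : AInd (fun k => (B.restrictScalars ℝ : Frm T) (w k)) := by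
      refine AInd.mul hA fun k => ⟨(ze m u ^ b k.succ - 1) * (1 - ze m u ^ b k.castSucc),
        mul_ne_zero (sub_ne_zero.2 (hne _)) (sub_ne_zero.2 (hne _).symm),
        ((hzal _).sub isAlgebraic_one).mul (isAlgebraic_one.sub (hzal _)), ?_⟩
      change c.e (w k) p₀ = _
      rw [hwe k p₀, hch, hex0, EndC.pp_sub hG k, EndC.frm_one]
      rfl
    have hBW : (B.restrictScalars ℝ : Frm T) ∈ Ws10 D v := by
      refine ⟨fun x => ?_, fun x => ?_⟩
      · have := hBZ x
        change B (D.Z x) = zet m v * B x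
        rw [hDZ, this, zet, hv, EndC.ze_pow]
      · exact B.map_smul _ _
    exact tPer (tBas tPj) T m r D hm (by omega) N.dim v hpv _ hBW w hwL hAI
  · have : {s : Fin (r + 1) → ℂ | (StrictMono fun j => (s j).im) ∧ Exc m r b s} = ∅ := by
      refine Set.eq_empty_of_forall_notMem ?_
      rintro s ⟨-, hno⟩
      exact hno fun T hc => absurd ⟨hc.1, hc.2.2.1, hc.2.2.2.1, hc.2.2.2.2⟩ hcov
    rw [this]
    exact IsMeagre.empty

end SECR
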