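import Pool.Agent.Lib.SE.CR.SpecH

/-!
# PROJECT SE-CR, layer (H): holomorphic dependence on the branch points
-/

set_option autoImplicit false

open MeasureTheory Filter Topology SEJ

noncomputable section

namespace SECR

namespace Hol

section general

variable {E : Type} [NormedAddCommGroup E] [NormedSpace ℂ E]

/-- the derivative in the first variable -/
def G1 (G : E × ℂ → ℂ) (p : E × ℂ) : E →L[ℂ] ℂ :=
  (fderiv ℂ G p).comp (ContinuousLinearMap.inl ℂ E ℂ)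

theorem cont_G1 {G : E × ℂ → ℂ} {p : E × ℂ} (h : AnalyticAt ℂ G p) : ContinuousAt (G1 G) p := by
  unfold G1
  exact h.fderiv.continuousAt.clm_comp continuousAt_const

theorem der_G1 {G : E × ℂ → ℂ} {x : E} {t : ℂ} (h : AnalyticAt ℂ G (x, t)) :
    HasFDerivAt (fun x => G (x, t)) (G1 G (x, t)) x :=
  h.differentiableAt.hasFDerivAt.comp x (hasFDerivAt_prodMk_left x t)

/-- integrals with an integrable weight -/
theorem gen (G : E × ℂ → ℂ) (w : ℝ → ℂ) (x₀ : E)
    (hG : ∀ t ∈ Set.Icc (0 : ℝ) 1, AnalyticAt ℂ G (x₀, (t : ℂ)))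
    (hw : IntervalIntegrable w volume 0 1) :
    DifferentiableAt ℂ (fun x => ∫ t in (0 : ℝ)..1, w t * G (x, (t : ℂ))) x₀ := by
  have hι : Continuous fun z : E × ℝ => ((z.1, (z.2 : ℂ)) : E × ℂ) :=
    continuous_fst.prodMk (Complex.continuous_ofReal.comp continuous_snd)
  have hιx : ∀ x : E, Continuous fun t : ℝ => ((x, (t : ℂ)) : E × ℂ) := fun x =>
    continuous_const.prodMk Complex.continuous_ofReal
  have hc1 : ∀ x : E, (∀ t ∈ Set.Icc (0 : ℝ) 1, AnalyticAt ℂ G (x, (t : ℂ))) →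
      ContinuousOn (fun t : ℝ => G1 G (x, (t : ℂ))) (Set.Icc 0 1) := fun x h t ht =>
    ((cont_G1 (h t ht)).comp (f := fun t : ℝ => ((x, (t : ℂ)) : E × ℂ))
      (hιx x).continuousAt).continuousWithinAt
  have hc0 : ∀ x : E, (∀ t ∈ Set.Icc (0 : ℝ) 1, AnalyticAt ℂ G (x, (t : ℂ))) →
      ContinuousOn (fun t : ℝ => G (x, (t : ℂ))) (Set.Icc 0 1) := fun x h t ht =>
    ((h t ht).continuousAt.comp (f := fun t : ℝ => ((x, (t : ℂ)) : E × ℂ))
      (hιx x).continuousAt).continuousWithinAt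
  obtain ⟨M, hM⟩ := isCompact_Icc.exists_bound_of_continuousOn (hc1 x₀ hG)
  have ev : ∀ᶠ x in 𝓝 x₀, ∀ t ∈ Set.Icc (0 : ℝ) 1,
      AnalyticAt ℂ G (x, (t : ℂ)) ∧ ‖G1 G (x, (t : ℂ))‖ ≤ M + 1 := by
    refine isCompact_Icc.eventually_forall_of_forall_eventually
      (P := fun x (t : ℝ) => AnalyticAt ℂ G (x, (t : ℂ)) ∧ ‖G1 G (x, (t : ℂ))‖ ≤ M + 1)
      fun t ht => ?_
    have a1 : ∀ᶠ p in 𝓝 (x₀, (t : ℂ)), AnalyticAt ℂ G p := (hG t ht).eventually_analyticAt
    have a2 : ∀ᶠ p in 𝓝 (x₀, (t : ℂ)), ‖G1 G p‖ < M + 1 :=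
      (cont_G1 (hG t ht)).norm.eventually_lt_const (lt_of_le_of_lt (hM t ht) (lt_add_one _))
    exact (hι.tendsto (x₀, t)).eventually (a1.and (a2.mono fun _ h => h.le))
  have hI : Set.uIoc (0 : ℝ) 1 = Set.Ioc 0 1 := Set.uIoc_of_le zero_le_one
  have hsub : Set.Ioc (0 : ℝ) 1 ⊆ Set.Icc 0 1 := Set.Ioc_subset_Icc_self
  have hwm : AEStronglyMeasurable w (volume.restrict (Set.uIoc 0 1)) := by
    rw [hI]
    exact hw.aestronglyMeasurable
  refine (intervalIntegral.hasFDerivAt_integral_of_dominated_of_fderiv_le (𝕜 := ℂ)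
    (F := fun x (t : ℝ) => w t * G (x, (t : ℂ)))
    (F' := fun x (t : ℝ) => w t • G1 G (x, (t : ℂ))) (bound := fun t => ‖w t‖ * (M + 1))
    ev ?_ ?_ ?_ ?_ ?_ ?_).differentiableAt
  · refine ev.mono fun x hx => ?_
    refine hwm.mul ?_
    rw [hI]
    exact ((hc0 x fun t ht => (hx t ht).1).mono hsub).aestronglyMeasurable measurableSet_Ioc
  · refine hw.mul_continuousOn ?_
    rw [Set.uIcc_of_le zero_le_one]
    exact hc0 x₀ hG
  · refine hwm.smul ?_
    rw [hI]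
    exact ((hc1 x₀ hG).mono hsub).aestronglyMeasurable measurableSet_Ioc
  · refine Eventually.of_forall fun t ht x hx => ?_
    rw [hI] at ht
    rw [norm_smul]
    exact mul_le_mul_of_nonneg_left (hx t (hsub ht)).2 (norm_nonneg _)
  · exact hw.norm.mul_const _
  · refine Eventually.of_forall fun t ht x hx => ?_
    rw [hI] at ht
    exact (der_G1 (hx t (hsub ht)).1).const_mul (w t)

end general

variable {r : ℕ}

/-- the regular factor -/
def GG (μ : Fin (r + 1) → ℝ) (P : Polynomial ℂ) (k : Fin r) (p : (Fin (r + 1) → ℂ) × ℂ) : ℂ :=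
  (p.1 k.succ - p.1 k.castSucc) *
    (P.eval (p.1 k.castSucc + p.2 * (p.1 k.succ - p.1 k.castSucc)) *
      ((p.1 k.succ - p.1 k.castSucc) ^ (-(μ k.castSucc : ℂ)) *
        (-(p.1 k.succ - p.1 k.castSucc)) ^ (-(μ k.succ : ℂ)) *
        ∏ j ∈ (Finset.univ.erase k.castSucc).erase k.succ,
          (p.1 k.castSucc + p.2 * (p.1 k.succ - p.1 k.castSucc) - p.1 j) ^ (-(μ j : ℂ))))

theorem an_pr (j : Fin (r + 1)) (p : (Fin (r + 1) → ℂ) × ℂ) :
    AnalyticAt ℂ (fun p : (Fin (r + 1) → ℂ) × ℂ => p.1 j) p :=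
  ((ContinuousLinearMap.proj (R := ℂ) (φ := fun _ : Fin (r + 1) => ℂ) j).comp
    (ContinuousLinearMap.fst ℂ (Fin (r + 1) → ℂ) ℂ)).analyticAt p

theorem im_d {s : Fin (r + 1) → ℂ} (hs : StrictMono fun j => (s j).im) (k : Fin r) :
    0 < (s k.succ - s k.castSucc).im := by
  rw [Complex.sub_im]
  exact sub_pos.2 (hs (Fin.castSucc_lt_succ (i := k)))

/-- the point is not on the line of another `s_j` -/
theorem im_x {s : Fin (r + 1) → ℂ} (hs : StrictMono fun j => (s j).im) (k : Fin r) (t : ℝ)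
    (ht : t ∈ Set.Icc (0 : ℝ) 1) (j : Fin (r + 1)) (ha : j ≠ k.castSucc) (hb : j ≠ k.succ) :
    (s k.castSucc + (t : ℂ) * (s k.succ - s k.castSucc) - s j).im ≠ 0 := by
  have e : (s k.castSucc + (t : ℂ) * (s k.succ - s k.castSucc) - s j).im =
      (s k.castSucc).im + t * ((s k.succ).im - (s k.castSucc).im) - (s j).im := by
    simp
  rw [e]
  have h1 : (s k.castSucc).im < (s k.succ).im := hs (Fin.castSucc_lt_succ (i := k))
  have h2 : (s j).im < (s k.castSucc).im ∨ (s k.succ).im < (s j).im := by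
    rcases lt_trichotomy j k.castSucc with h | h | h
    · left; exact hs h
    · exact absurd h ha
    · right
      refine hs (lt_of_le_of_ne ?_ (Ne.symm hb))
      rw [Fin.lt_def] at h
      rw [Fin.le_def]
      simp only [Fin.val_castSucc, Fin.val_succ] at h ⊢
      omega
  rcases h2 with h | h
  · have : 0 ≤ t * ((s k.succ).im - (s k.castSucc).im) := mul_nonneg ht.1 (by linarith)
    intro h'
    linarith
  · have : t * ((s k.succ).im - (s k.castSucc).im) ≤ 1 * ((s k.succ).im - (s k.castSucc).im) :=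
      mul_le_mul_of_nonneg_right ht.2 (by linarith)
    intro h'
    linarith

theorem an_GG (μ : Fin (r + 1) → ℝ) (P : Polynomial ℂ) (k : Fin r) {s : Fin (r + 1) → ℂ}
    (hs : StrictMono fun j => (s j).im) (t : ℝ) (ht : t ∈ Set.Icc (0 : ℝ) 1) :
    AnalyticAt ℂ (GG μ P k) (s, (t : ℂ)) := by
  have hd : AnalyticAt ℂ (fun p : (Fin (r + 1) → ℂ) × ℂ => p.1 k.succ - p.1 k.castSucc)
      (s, (t : ℂ)) := (an_pr _ _).sub (an_pr _ _)
  have hx : AnalyticAt ℂ (fun p : (Fin (r + 1) → ℂ) × ℂ =>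
      p.1 k.castSucc + p.2 * (p.1 k.succ - p.1 k.castSucc)) (s, (t : ℂ)) :=
    (an_pr _ _).add (analyticAt_snd.mul hd)
  have hP : AnalyticAt ℂ (fun p : (Fin (r + 1) → ℂ) × ℂ =>
      P.eval (p.1 k.castSucc + p.2 * (p.1 k.succ - p.1 k.castSucc))) (s, (t : ℂ)) :=
    (P.differentiable.analyticAt _).comp hx
  have hd0 := im_d hs k
  unfold GG
  refine hd.mul (hP.mul ((AnalyticAt.mul ?_ ?_).mul ?_))
  · exact hd.cpow analyticAt_const (Or.inr hd0.ne')
  · refine hd.neg.cpow analyticAt_const (Or.inr ?_)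
    simp only [Pi.neg_apply, Complex.neg_im]
    exact neg_ne_zero.2 hd0.ne'
  · refine Finset.analyticAt_fun_prod _ fun j hj => ?_
    have hb := Finset.ne_of_mem_erase hj
    have ha := Finset.ne_of_mem_erase (Finset.mem_of_mem_erase hj)
    exact (hx.sub (an_pr j _)).cpow analyticAt_const (Or.inr (im_x hs k t ht j ha hb))

/-- a positive factor -/
theorem cpow_pos {x : ℝ} (hx : 0 < x) {z : ℂ} (hz : z ≠ 0) (c : ℂ) :
    ((x : ℂ) * z) ^ c = (x : ℂ) ^ c * z ^ c := by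
  have hx' : (x : ℂ) ≠ 0 := by exact_mod_cast hx.ne'
  rw [Complex.cpow_def_of_ne_zero (mul_ne_zero hx' hz), Complex.cpow_def_of_ne_zero hx',
    Complex.cpow_def_of_ne_zero hz, Complex.log_ofReal_mul hx hz, ← Complex.exp_add,
    Complex.ofReal_log hx.le]
  congr 1
  ring

/-- the integrand -/
theorem integrand (μ : Fin (r + 1) → ℝ) (P : Polynomial ℂ) (k : Fin r) {s : Fin (r + 1) → ℂ}
    (hs : StrictMono fun j => (s j).im) (t : ℝ) (h0 : 0 < t) (h1 : t < 1) :
    (s k.succ - s k.castSucc) * frm s μ P (s k.castSucc + t * (s k.succ - s k.castSucc)) =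
      ((t : ℂ) ^ ((1 - (μ k.castSucc : ℂ)) - 1) * (1 - (t : ℂ)) ^ ((1 - (μ k.succ : ℂ)) - 1)) *
        GG μ P k (s, (t : ℂ)) := by
  have hd : s k.succ - s k.castSucc ≠ 0 := fun h => by
    have := im_d hs k
    rw [h] at this
    simp at this
  have hab : k.succ ≠ k.castSucc := (Fin.castSucc_lt_succ (i := k)).ne'
  have e1 : (1 - (μ k.castSucc : ℂ)) - 1 = -(μ k.castSucc : ℂ) := by ring
  have e2 : (1 - (μ k.succ : ℂ)) - 1 = -(μ k.succ : ℂ) := by ring
  have e3 : (s k.castSucc + (t : ℂ) * (s k.succ - s k.castSucc) - s k.castSucc) ^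
      (-(μ k.castSucc : ℂ)) = (t : ℂ) ^ (-(μ k.castSucc : ℂ)) *
        (s k.succ - s k.castSucc) ^ (-(μ k.castSucc : ℂ)) := by
    rw [← cpow_pos h0 hd]
    congr 1
    ring
  have e4 : (s k.castSucc + (t : ℂ) * (s k.succ - s k.castSucc) - s k.succ) ^
      (-(μ k.succ : ℂ)) = (1 - (t : ℂ)) ^ (-(μ k.succ : ℂ)) *
        (-(s k.succ - s k.castSucc)) ^ (-(μ k.succ : ℂ)) := by
    have e5 : (1 - (t : ℂ)) = ((1 - t : ℝ) : ℂ) := by push_cast; ring
    rw [e5, ← cpow_pos (by linarith) (neg_ne_zero.2 hd)]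
    congr 1
    push_cast
    ring
  rw [e1, e2]
  unfold frm xi GG
  rw [← Finset.mul_prod_erase Finset.univ _ (Finset.mem_univ k.castSucc),
    ← Finset.mul_prod_erase (Finset.univ.erase k.castSucc) _
      (Finset.mem_erase.2 ⟨hab, Finset.mem_univ k.succ⟩), e3, e4]
  ring

end Hol

open Hol in
/-- **Hol** -/
theorem tHol : S_Hol := by
  intro r μ P hμ k s hs
  have hw : IntervalIntegrable (fun t : ℝ => (t : ℂ) ^ ((1 - (μ k.castSucc : ℂ)) - 1) *
      (1 - (t : ℂ)) ^ ((1 - (μ k.succ : ℂ)) - 1)) volume 0 1 := by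
    refine Complex.betaIntegral_convergent ?_ ?_
    · simp only [Complex.sub_re, Complex.one_re, Complex.ofReal_re]
      linarith [(hμ k.castSucc).2]
    · simp only [Complex.sub_re, Complex.one_re, Complex.ofReal_re]
      linarith [(hμ k.succ).2]
  have h1 := (gen (GG μ P k) _ s (fun t ht => an_GG μ P k hs t ht) hw).differentiableWithinAt
    (s := {s | StrictMono fun j => (s j).im})
  have h2 : ∀ s' ∈ {s : Fin (r + 1) → ℂ | StrictMono fun j => (s j).im}, sgi μ P s' k =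
      ∫ t in (0 : ℝ)..1, ((t : ℂ) ^ ((1 - (μ k.castSucc : ℂ)) - 1) *
        (1 - (t : ℂ)) ^ ((1 - (μ k.succ : ℂ)) - 1)) * GG μ P k (s', (t : ℂ)) := by
    intro s' hs'
    unfold sgi
    refine intervalIntegral.integral_congr_ae ?_
    have h3 : ∀ᵐ t : ℝ, t ∈ ({1}ᶜ : Set ℝ) := compl_mem_ae_iff.2 (measure_singleton 1)
    refine h3.mono fun t ht ht' => ?_
    rw [Set.uIoc_of_le zero_le_one] at ht'
    exact integrand μ P k hs' t ht'.1 (lt_of_le_of_ne ht'.2 ht)
  exact h1.congr h2 (h2 s hs)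

end SECR
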