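import Pool.Agent.Lib.SE.CR.Spec
import Pool.Agent.Lib.SE.P.GAll

/-!
# PROJECT SE-CR: the identity theorem for the periods (helper50)
-/

set_option autoImplicit false

open MeasureTheory Filter Topology Module SEJ SEP SEB HC HC.SE

noncomputable section

namespace SECR

namespace Idt

variable {k : ℕ}

/-- increasing imaginary parts -/
def UU (k : ℕ) : Set (Fin k → ℂ) := {s | StrictMono fun j => (s j).im}

lemma isOpen_UU : IsOpen (UU k) :=
  isOpen_iff_mem_nhds.2 fun s hs => P3j.ev_mono s hs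

lemma convex_UU : Convex ℝ (UU k) := by
  intro x hx y hy a b ha hb hab i j hij
  have h1 : (x i).im < (x j).im := hx hij
  have h2 : (y i).im < (y j).im := hy hij
  show ((a • x + b • y) i).im < ((a • x + b • y) j).im
  have e : ∀ m, ((a • x + b • y) m).im = a * (x m).im + b * (y m).im := by
    intro m
    show (a • x m + b • y m).im = _
    rw [Complex.add_im, Complex.smul_im, Complex.smul_im]
    rfl
  rw [e, e]
  rcases ha.eq_or_lt with h | h
  · have hb1 : b = 1 := by linarith
    rw [← h, hb1]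
    linarith
  · have h3 := mul_lt_mul_of_pos_left h1 h
    have h4 := mul_le_mul_of_nonneg_left h2.le hb
    linarith

/-- the relation spreads over all of `UU k` -/
lemma spread (μ : Fin k → ℝ) (hμ : Mu μ) (c : Fin k → ℂ) (s₀ s₁ : Fin k → ℂ) (h₀ : s₀ ∈ UU k)
    (h₁ : s₁ ∈ UU k) (hc : ∀ᶠ s in 𝓝 s₀, ∑ j, c j * per μ s j = 0) :
    ∑ j, c j * per μ s₁ j = 0 := by
  set φ : ℂ → Fin k → ℂ := fun t => s₀ + t • (s₁ - s₀) with hφ
  have hφc : Differentiable ℂ φ := by
    rw [hφ]
    exact (differentiable_const _).add (differentiable_id.smul_const _)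
  have hO : IsOpen (φ ⁻¹' UU k) := isOpen_UU.preimage hφc.continuous
  have hC : Convex ℝ (φ ⁻¹' UU k) := by
    intro t ht t' ht' a b ha hb hab
    have h2 := convex_UU ht ht' ha hb hab
    have e : φ (a • t + b • t') = a • φ t + b • φ t' := by
      rw [hφ]
      ext m
      show s₀ m + (a • t + b • t') * (s₁ m - s₀ m) =
        a • (s₀ m + t * (s₁ m - s₀ m)) + b • (s₀ m + t' * (s₁ m - s₀ m))
      simp only [Complex.real_smul]
      have h3 : (a : ℂ) + b = 1 := by exact_mod_cast hab
      linear_combination -(s₀ m) * h3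
    show φ (a • t + b • t') ∈ UU k
    rw [e]
    exact h2
  have h0 : φ 0 = s₀ := by simp [hφ]
  have h1 : φ 1 = s₁ := by simp [hφ]
  have hd : ∀ s ∈ UU k, DifferentiableAt ℂ (fun s' : Fin k → ℂ => ∑ j, c j * per μ s' j) s := by
    intro s hs
    refine DifferentiableAt.fun_sum fun j _ => ?_
    exact ((tP3a μ s hμ hs j).hasFDerivAt.differentiableAt).const_mul (c j)
  have hD : DifferentiableOn ℂ (fun t => ∑ j, c j * per μ (φ t) j) (φ ⁻¹' UU k) := by
    intro t ht
    exact ((hd (φ t) ht).comp t (hφc t)).differentiableWithinAt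
  have hA := hD.analyticOnNhd hO
  have hz : (fun t => ∑ j, c j * per μ (φ t) j) =ᶠ[𝓝 0] 0 := by
    have h2 : Tendsto φ (𝓝 0) (𝓝 s₀) := by
      have := hφc.continuous.tendsto 0
      rwa [h0] at this
    exact h2.eventually hc
  have := hA.eqOn_zero_of_preconnected_of_eventuallyEq_zero hC.isPreconnected
    (show (0 : ℂ) ∈ φ ⁻¹' UU k by rw [Set.mem_preimage, h0]; exact h₀) hz
    (show (1 : ℂ) ∈ φ ⁻¹' UU k by rw [Set.mem_preimage, h1]; exact h₁)
  simp only [h1] at this
  exact this

end Idt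

open Idt

theorem tIdt : S_Idt := by
  intro k μ hμ c hc
  obtain ⟨s₀, hs₀⟩ := hc
  have hs₀' := interior_subset hs₀
  have hall : ∀ s ∈ UU k, ∑ j, c j * per μ s j = 0 := fun s hs =>
    spread μ hμ c s₀ s hs₀'.1 hs (by
      filter_upwards [isOpen_interior.mem_nhds hs₀] with s' hs'
      exact (interior_subset hs').2)
  -- the base point `i β`
  have hβ : StrictMono fun j : Fin k => ((j : ℕ) : ℝ) := fun i j hij => by
    show ((i : ℕ) : ℝ) < ((j : ℕ) : ℝ)
    exact_mod_cast hij
  set β : Fin k → ℝ := fun j => ((j : ℕ) : ℝ) with hβd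
  have hU : (fun j => Complex.I * (β j : ℂ)) ∈ UU k := by
    intro i j hij
    have := hβ hij
    simpa using this
  have hP := s_P3 μ β hμ hβ (UU k) (isOpen_UU.mem_nhds hU)
  have hrel := G_rel μ _ hμ hU
  have h0 := hall _ hU
  set t₀ : Fin k → ℂ := fun j => per μ (fun j => Complex.I * (β j : ℂ)) j with ht₀
  have hP' : ∀ᶠ t in 𝓝[{t : Fin k → ℂ | ∑ j, (1 - lam μ j) * t j = 0}] t₀,
      ∑ j, c j * t j = 0 := by
    filter_upwards [hP] with t ht
    obtain ⟨s, hs, rfl⟩ := ht
    exact hall s hs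
  have key : ∀ w : Fin k → ℂ, ∑ j, (1 - lam μ j) * w j = 0 → ∑ j, c j * w j = 0 := by
    intro w hw
    have hT : Tendsto (fun ε : ℂ => t₀ + ε • w) (𝓝 0)
        (𝓝[{t : Fin k → ℂ | ∑ j, (1 - lam μ j) * t j = 0}] t₀) := by
      refine tendsto_nhdsWithin_iff.2 ⟨?_, Eventually.of_forall fun ε => ?_⟩
      · have hcont : Continuous fun ε : ℂ => t₀ + ε • w :=
          continuous_const.add (continuous_id.smul continuous_const)
        have := hcont.tendsto 0
        rwa [zero_smul, add_zero] at this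
      · show ∑ j, (1 - lam μ j) * (t₀ j + ε * w j) = 0
        have e : ∀ j, (1 - lam μ j) * (t₀ j + ε * w j) =
            (1 - lam μ j) * t₀ j + ε * ((1 - lam μ j) * w j) := fun j => by ring
        rw [Finset.sum_congr rfl fun j _ => e j, Finset.sum_add_distrib, ← Finset.mul_sum, hw,
          mul_zero, add_zero]
        exact hrel
    obtain ⟨ε, hε, hε0⟩ := (((hT.eventually hP').filter_mono nhdsWithin_le_nhds).and
      (self_mem_nhdsWithin : {x : ℂ | x ≠ 0} ∈ 𝓝[≠] (0 : ℂ))).exists
    have e : ∀ j, c j * (t₀ j + ε * w j) = c j * t₀ j + ε * (c j * w j) := fun j => by ring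
    have h2 : ∑ j, c j * (t₀ j + ε * w j) = 0 := hε
    rw [Finset.sum_congr rfl fun j _ => e j, Finset.sum_add_distrib, ← Finset.mul_sum, h0,
      zero_add] at h2
    exact (mul_eq_zero.1 h2).resolve_left hε0
  rcases isEmpty_or_nonempty (Fin k) with he | ⟨⟨j0⟩⟩
  · exact ⟨0, fun j => he.elim j⟩
  · refine ⟨c j0 / (1 - lam μ j0), fun j => ?_⟩
    have h1 := P3j.lam_ne_one μ hμ j0
    have h2 := key (fun m => (if m = j then (1 - lam μ j0) else 0) -
      (if m = j0 then (1 - lam μ j) else 0)) (by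
        simp only [mul_sub, Finset.sum_sub_distrib, mul_ite, mul_zero, Finset.sum_ite_eq',
          Finset.mem_univ, if_true]
        ring)
    simp only [mul_sub, Finset.sum_sub_distrib, mul_ite, mul_zero, Finset.sum_ite_eq',
      Finset.mem_univ, if_true] at h2
    field_simp
    linear_combination h2

end SECR
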