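import Pool.Agent.Lib.SE.CR.Spec
import Pool.Agent.Lib.SE.P.P3a
import Mathlib.Algebra.AlgebraicCard
import Mathlib.Topology.GDelta.Basic

/-!
# PROJECT SE-CR: the branch points with algebraically dependent periods are meagre
-/

set_option autoImplicit false

open MeasureTheory Filter Topology Module SEJ SEP SEB HC HC.SE

noncomputable section

namespace SECR

namespace Ind

/-- a relatively closed subset of an open set without interior points is nowhere dense -/
theorem nd {E : Type} [TopologicalSpace E] {U : Set E} (hU : IsOpen U) {g : E → ℂ}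
    (hg : ∀ x ∈ U, ContinuousAt g x) (hi : ¬ (interior {s | s ∈ U ∧ g s = 0}).Nonempty) :
    IsNowhereDense {s | s ∈ U ∧ g s = 0} := by
  have h1 : closure {s | s ∈ U ∧ g s = 0} ∩ U ⊆ {s | s ∈ U ∧ g s = 0} := by
    rintro x ⟨hx, hxU⟩
    refine ⟨hxU, ?_⟩
    by_contra h0
    have h2 : ∀ᶠ y in 𝓝 x, g y ≠ 0 := (hg x hxU).eventually_ne h0
    rw [mem_closure_iff_frequently] at hx
    obtain ⟨y, hy, hy2⟩ := (hx.and_eventually h2).exists
    exact hy2 hy.2
  rw [IsNowhereDense, Set.eq_empty_iff_forall_notMem]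
  intro x hx
  apply hi
  have h2 : x ∈ closure {s | s ∈ U ∧ g s = 0} := interior_subset hx
  obtain ⟨y, hy, hyF⟩ := mem_closure_iff_nhds.1 h2 _ (isOpen_interior.mem_nhds hx)
  refine ⟨y, mem_interior.2 ⟨interior (closure {s | s ∈ U ∧ g s = 0}) ∩ U, ?_, ?_, hy, hyF.1⟩⟩
  · exact fun z hz => h1 ⟨interior_subset hz.1, hz.2⟩
  · exact isOpen_interior.inter hU

theorem isOpenU (k : ℕ) : IsOpen {s : Fin k → ℂ | StrictMono fun j => (s j).im} := by
  have h1 : {s : Fin k → ℂ | StrictMono fun j => (s j).im} =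
      ⋂ i : Fin k, ⋂ j : Fin k, {s : Fin k → ℂ | i < j → (s i).im < (s j).im} := by
    ext s
    simp only [Set.mem_iInter]
    exact ⟨fun h i j hij => h hij, fun h i j hij => h i j hij⟩
  rw [h1]
  refine isOpen_iInter_of_finite fun i => isOpen_iInter_of_finite fun j => ?_
  by_cases hij : i < j
  · have h2 : {s : Fin k → ℂ | i < j → (s i).im < (s j).im} =
        {s : Fin k → ℂ | (s i).im < (s j).im} := by
      ext s
      exact ⟨fun h => h hij, fun h _ => h⟩
    rw [h2]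
    exact isOpen_lt (Complex.continuous_im.comp (continuous_apply i))
      (Complex.continuous_im.comp (continuous_apply j))
  · have h2 : {s : Fin k → ℂ | i < j → (s i).im < (s j).im} = Set.univ := by
      ext s
      exact ⟨fun _ => trivial, fun _ h => absurd h hij⟩
    rw [h2]
    exact isOpen_univ

/-- the coefficients -/
def dd {r : ℕ} (μ : Fin (r + 1) → ℝ) (c : Fin r → ℂ) (j : Fin (r + 1)) : ℂ :=
  (Fin.snoc c 0 : Fin (r + 1) → ℂ) j - lam μ j * (Fin.cons 0 c : Fin (r + 1) → ℂ) j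

theorem sum_dd {r : ℕ} (μ : Fin (r + 1) → ℝ) (c : Fin r → ℂ) (p : Fin (r + 1) → ℂ) :
    ∑ k : Fin r, c k * (p k.castSucc - lam μ k.succ * p k.succ) = ∑ j, dd μ c j * p j := by
  have h1 : ∑ j, (Fin.snoc c 0 : Fin (r + 1) → ℂ) j * p j = ∑ k : Fin r, c k * p k.castSucc := by
    rw [Fin.sum_univ_castSucc]
    simp
  have h2 : ∑ j, (Fin.cons 0 c : Fin (r + 1) → ℂ) j * (lam μ j * p j) =
      ∑ k : Fin r, c k * (lam μ k.succ * p k.succ) := by
    rw [Fin.sum_univ_succ]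
    simp
  calc ∑ k : Fin r, c k * (p k.castSucc - lam μ k.succ * p k.succ)
      = ∑ k : Fin r, c k * p k.castSucc - ∑ k : Fin r, c k * (lam μ k.succ * p k.succ) := by
        rw [← Finset.sum_sub_distrib]
        exact Finset.sum_congr rfl fun k _ => by ring
    _ = ∑ j, dd μ c j * p j := by
        rw [← h1, ← h2, ← Finset.sum_sub_distrib]
        exact Finset.sum_congr rfl fun j _ => by rw [dd]; ring

theorem prod_ne {r : ℕ} (μ : Fin (r + 1) → ℝ) (h : ∀ n : ℤ, ∑ j, μ j ≠ n) : ∏ j, lam μ j ≠ 1 := by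
  intro h1
  have h2 : ∏ j, lam μ j = Complex.exp (2 * Real.pi * Complex.I * ((∑ j, μ j : ℝ) : ℂ)) := by
    simp only [lam]
    rw [← Complex.exp_sum, ← Finset.mul_sum]
    push_cast
    rfl
  rw [h2, Complex.exp_eq_one_iff] at h1
  obtain ⟨n, hn⟩ := h1
  apply h n
  have h3 : (2 * Real.pi * Complex.I : ℂ) ≠ 0 := Complex.two_pi_I_ne_zero
  have h4 : (((∑ j, μ j : ℝ) : ℂ)) = (n : ℂ) := by
    apply mul_left_cancel₀ h3
    rw [hn]
    ring
  exact_mod_cast h4

/-- the induction -/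
theorem rec {r : ℕ} (μ : Fin (r + 1) → ℝ) (c : Fin r → ℂ) (a : ℂ) (h : ∀ n : ℤ, ∑ j, μ j ≠ n)
    (hd : ∀ j, dd μ c j = a * (1 - lam μ j)) : c = 0 := by
  have hs : ∀ j : Fin (r + 1), (Fin.snoc c 0 : Fin (r + 1) → ℂ) j - a =
      lam μ j * ((Fin.cons 0 c : Fin (r + 1) → ℂ) j - a) := by
    intro j
    have h1 := hd j
    rw [dd] at h1
    linear_combination h1
  have key : ∀ n : ℕ, ∀ hn : n < r + 1, (Fin.snoc c 0 : Fin (r + 1) → ℂ) ⟨n, hn⟩ - a =
      -a * ∏ i : Fin (n + 1), lam μ ⟨i.1, by omega⟩ := by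
    intro n
    induction n with
    | zero =>
      intro hn
      rw [hs]
      have h1 : (Fin.cons 0 c : Fin (r + 1) → ℂ) ⟨0, hn⟩ = 0 := rfl
      rw [h1]
      simp
      ring
    | succ n ih =>
      intro hn
      rw [hs]
      have h1 : (Fin.cons 0 c : Fin (r + 1) → ℂ) ⟨n + 1, hn⟩ =
          (Fin.snoc c 0 : Fin (r + 1) → ℂ) ⟨n, by omega⟩ := by
        have h2 : (⟨n + 1, hn⟩ : Fin (r + 1)) = Fin.succ ⟨n, by omega⟩ := rfl
        have h3 : (⟨n, by omega⟩ : Fin (r + 1)) = Fin.castSucc ⟨n, by omega⟩ := rfl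
        rw [h2, h3, Fin.cons_succ, Fin.snoc_castSucc]
      rw [h1, ih (by omega), Fin.prod_univ_castSucc (n := n + 1)]
      simp only [Fin.val_castSucc, Fin.val_last]
      ring
  have hr := key r (by omega)
  have hl : (⟨r, by omega⟩ : Fin (r + 1)) = Fin.last r := rfl
  rw [hl, Fin.snoc_last] at hr
  have hp : ∏ i : Fin (r + 1), lam μ ⟨i.1, by omega⟩ = ∏ j, lam μ j := rfl
  rw [hp] at hr
  have ha : a = 0 := by
    have h1 : a * (∏ j, lam μ j - 1) = 0 := by linear_combination hr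
    exact (mul_eq_zero.1 h1).resolve_right (sub_ne_zero.2 (prod_ne μ h))
  funext k
  have hk := key k.1 (by omega)
  have h3 : (⟨k.1, by omega⟩ : Fin (r + 1)) = Fin.castSucc k := rfl
  rw [h3, Fin.snoc_castSucc, ha] at hk
  rw [Pi.zero_apply]
  linear_combination hk

end Ind

open Ind

theorem tInd : S_Ind := by
  intro hIdt r μ hμ hn _
  have hc : {c : Fin r → ℂ | ∀ k, c k ∈ {x : ℂ | IsAlgebraic ℚ x}}.Countable :=
    Set.countable_pi fun _ => Algebraic.countable ℚ ℂ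
  have hU := isOpenU (r + 1)
  have hcont : ∀ c : Fin r → ℂ, ∀ s ∈ {s : Fin (r + 1) → ℂ | StrictMono fun j => (s j).im},
      ContinuousAt (fun s => ∑ j, dd μ c j * per μ s j) s := by
    intro c s hs
    refine tendsto_finsetSum _ fun j _ => ?_
    exact ((tP3a μ s hμ hs j).hasFDerivAt.continuousAt).const_mul _
  have hm : ∀ c ∈ {c : Fin r → ℂ | ∀ k, c k ∈ {x : ℂ | IsAlgebraic ℚ x}} \ {0},
      IsMeagre {s : Fin (r + 1) → ℂ | s ∈ {s : Fin (r + 1) → ℂ | StrictMono fun j => (s j).im} ∧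
        ∑ j, dd μ c j * per μ s j = 0} := by
    intro c hc
    refine (nd hU (hcont c) fun hne => hc.2 ?_).isMeagre
    obtain ⟨a, ha⟩ := hIdt μ hμ (dd μ c) hne
    exact rec μ c a hn ha
  refine IsMeagre.mono ?_ (isMeagre_biUnion (hc.mono Set.sdiff_subset) hm)
  rintro s ⟨hs, hA⟩
  simp only [AInd, not_forall] at hA
  obtain ⟨c, hca, hc0, hcn⟩ := hA
  refine Set.mem_iUnion₂.2 ⟨c, ⟨hca, hcn⟩, hs, ?_⟩
  rw [← sum_dd]
  exact hc0

end SECR
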