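import Pool.Agent.Lib.SE.CR.Spec

set_option autoImplicit false

open MeasureTheory Filter Topology Module SEJ SEP SEB HC HC.SE

noncomputable section

namespace SECR

namespace Lv

variable {T : AV} {m r : ℕ} {s : Fin (r + 1) → ℂ} {b : Fin (r + 1) → ℕ}

theorem e_pow {N : New T m s b} (c : Crd N) (n : ℕ) (v : T.V) (p : Ix m b) :
    c.e ((N.Z ^ n) v) p = ze m (ch p) ^ n * c.e v p := by
  induction n generalizing v with
  | zero => rw [pow_zero, pow_zero, one_mul]; rfl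
  | succ n ih => rw [pow_succ, Module.End.mul_apply, ih, c.Z, pow_succ, mul_assoc]

theorem e_Pv {N : New T m s b} (c : Crd N) (j : Fin (r + 1)) (p : Ix m b) :
    c.e (Pv c j) p = Pp s (frm s (mu m b (ch p)) (Polynomial.X ^ ex p)) j := by
  unfold Pv
  rw [c.e.apply_symm_apply]

end Lv

theorem tLv : S_Lv := by
  intro hCut hAl hCrs T m r s b hcov hs N c k l
  obtain ⟨C0, h0⟩ := hAl hCut hcov hs N c 0
  obtain ⟨Ck, hk⟩ := hAl hCut hcov hs N c (b k)
  obtain ⟨Cl, hl⟩ := hAl hCut hcov hs N c (b l)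
  obtain ⟨D, hD⟩ := hAl hCut hcov hs N c (b l + b k)
  have hD2 : IsC N c (b k + b l) D := by rwa [add_comm] at hD
  have hk2 : IsC N c (0 + b k) Ck := by rwa [zero_add]
  have hl2 : IsC N c (0 + b l) Cl := by rwa [zero_add]
  have e1 := hCrs hcov hs N c (b l) k Cl D hl hD
  have e2 := hCrs hcov hs N c 0 k C0 Ck h0 hk2
  have e3 := hCrs hcov hs N c (b k) l Ck D hk hD2
  have e4 := hCrs hcov hs N c 0 l C0 Cl h0 hl2
  rw [pow_zero, Module.End.one_apply] at e2 e4
  have e5 := T.L.sub_mem (T.L.sub_mem e2 e1) (T.L.sub_mem e4 e3)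
  refine ⟨_, e5, fun p => ?_⟩
  simp only [map_sub, Pi.sub_apply, Lv.e_pow, Lv.e_Pv]
  ring

end SECR
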