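import Pool.Agent.Lib.SE.CR.SpecH
import Pool.Agent.Lib.SE.J.A2
import Pool.Agent.Lib.SE.J.C1
import Pool.Agent.Lib.SE.J.C2
import Pool.Agent.Lib.SE.J.C5
import Pool.Agent.Lib.SE.J.D1
import Pool.Agent.Lib.SE.J.D3

/-!
# PROJECT SE-CR, module SegI: segment integrals and the primitive (helper14)

The primitive is continuous at the branch points (dominated convergence in the form
`prm f x = - ∫ 1_(u > Re x) f(u + i Im x) du`, with the bound of `S_A2`); the integrand on the segment
is integrable as it is at most `K t^(-μ_k) (1 - t)^(-μ_(k+1))`.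
-/

set_option autoImplicit false

open MeasureTheory Filter Topology SEJ

noncomputable section

namespace SECR

namespace SegI

theorem pt_re (a b : ℝ) : (pt a b).re = a := by simp [pt]

theorem pt_im (a b : ℝ) : (pt a b).im = b := by simp [pt]

theorem shift (h : ℝ → ℂ) (a : ℝ) :
    ∫ t in Set.Ioi (0 : ℝ), h (a + t) = ∫ x in Set.Ioi a, h x := by
  rw [← integral_indicator measurableSet_Ioi, ← integral_indicator measurableSet_Ioi,
    ← integral_add_left_eq_self (fun x => (Set.Ioi a).indicator h x) a]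
  refine integral_congr_ae (Eventually.of_forall fun t => ?_)
  by_cases ht : 0 < t
  · have h1 : t ∈ Set.Ioi (0 : ℝ) := ht
    have h2 : a + t ∈ Set.Ioi a := by
      simp only [Set.mem_Ioi]
      linarith
    simp only [Set.indicator_of_mem h1, Set.indicator_of_mem h2]
  · have h1 : t ∉ Set.Ioi (0 : ℝ) := ht
    have h2 : a + t ∉ Set.Ioi a := by
      simp only [Set.mem_Ioi]
      intro h3
      exact ht (by linarith)
    simp only [Set.indicator_of_notMem h1, Set.indicator_of_notMem h2]

theorem prm_eq (f : ℂ → ℂ) (x : ℂ) :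
    prm f x = - ∫ u in Set.Ioi x.re, f (pt u x.im) := by
  rw [← shift (fun u => f (pt u x.im)) x.re]
  unfold prm
  refine congrArg Neg.neg (integral_congr_ae (Eventually.of_forall fun t => ?_))
  refine congrArg f ?_
  refine Complex.ext ?_ ?_
  · rw [pt_re]
    simp
  · rw [pt_im]
    simp

theorem prm_s {k : ℕ} (s : Fin k → ℂ) (f : ℂ → ℂ) (j : Fin k) : prm f (s j) = Pp s f j :=
  prm_eq f (s j)

theorem meas_pt (b : ℝ) : Measurable (fun x : ℝ => pt x b) := by
  unfold pt
  exact (Complex.measurable_ofReal).add_const _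

theorem ae_ne {k : ℕ} (s : Fin k → ℂ) : ∀ᵐ x : ℝ, ∀ j, x ≠ (s j).re := by
  rw [ae_all_iff]
  intro j
  rw [ae_iff]
  simp

/-- The primitive is continuous at the branch points. -/
theorem cont {k : ℕ} {s : Fin k → ℂ} {μ : Fin k → ℝ} {P : Polynomial ℂ} (hG : Good s μ P)
    (j : Fin k) : ContinuousAt (prm (frm s μ P)) (s j) := by
  by_cases hP : P = 0
  · have h : prm (frm s μ P) = fun _ => 0 := by
      funext x
      simp [prm, frm, hP]
    rw [h]
    exact continuousAt_const
  obtain ⟨C, d, hd, hd1, hC, hb, -⟩ := tC2 s μ P hG hP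
  obtain ⟨F, hF, hFb⟩ := tA2 s μ d hG.im hd (fun j => (hG.pos j).le) hG.lt hd1
  have e : prm (frm s μ P) = fun x : ℂ =>
      - ∫ u, (Set.Ioi x.re).indicator (fun u => frm s μ P (pt u x.im)) u := by
    funext x
    rw [prm_eq, integral_indicator measurableSet_Ioi]
  rw [e]
  refine Tendsto.neg ?_
  refine tendsto_integral_filter_of_dominated_convergence (fun u => C * F u) ?_ ?_
    (hF.const_mul C) ?_
  · refine Eventually.of_forall fun x => ?_
    exact (((D3_meas s μ P).comp (meas_pt x.im)).indicator measurableSet_Ioi).aestronglyMeasurable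
  · refine Eventually.of_forall fun x => ?_
    filter_upwards [ae_ne s] with u hu
    refine (norm_indicator_le_norm_self _ _).trans ?_
    exact (hb _).trans (mul_le_mul_of_nonneg_left (hFb _ _ hu) hC)
  · filter_upwards [ae_ne s] with u hu
    rcases lt_or_gt_of_ne (hu j) with h1 | h1
    · have h2 : ∀ᶠ x : ℂ in 𝓝 (s j), u < x.re :=
        Complex.continuous_re.continuousAt.eventually_const_lt h1
      rw [Set.indicator_of_notMem (fun h : u ∈ Set.Ioi (s j).re => lt_asymm h h1)]
      refine tendsto_const_nhds.congr' ?_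
      filter_upwards [h2] with x hx
      rw [Set.indicator_of_notMem (fun h : u ∈ Set.Ioi x.re => lt_asymm h hx)]
    · have h2 : ∀ᶠ x : ℂ in 𝓝 (s j), x.re < u :=
        Complex.continuous_re.continuousAt.eventually_lt_const h1
      rw [Set.indicator_of_mem (show u ∈ Set.Ioi (s j).re from h1)]
      have h3 : ContinuousAt (frm s μ P) (pt u (s j).im) := by
        refine (tC1 s μ P _ fun l => ?_).continuousAt
        rw [Complex.mem_slitPlane_iff, Complex.sub_re, Complex.sub_im, pt_re, pt_im]
        by_cases hl : l = j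
        · subst hl
          exact Or.inl (sub_pos.2 h1)
        · exact Or.inr (sub_ne_zero.2 fun h => hl (hG.im.injective h.symm))
      have h4 : ContinuousAt (fun x : ℂ => pt u x.im) (s j) := by
        unfold pt
        exact (continuous_const.add ((Complex.continuous_ofReal.comp
          Complex.continuous_im).mul continuous_const)).continuousAt
      have h5 : ContinuousAt (fun x : ℂ => frm s μ P (pt u x.im)) (s j) :=
        ContinuousAt.comp (f := fun x : ℂ => pt u x.im) h3 h4
      refine Tendsto.congr' ?_ h5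
      filter_upwards [h2] with x hx
      rw [Set.indicator_of_mem (show u ∈ Set.Ioi x.re from hx)]

section seg

variable {r : ℕ} {s : Fin (r + 1) → ℂ} {μ : Fin (r + 1) → ℝ} {P : Polynomial ℂ}

theorem seg_im (a d : ℂ) (t : ℝ) : (a + t * d).im = a.im + t * d.im := by
  simp

/-- The indices are at most `k` or at least `k + 1`. -/
theorem idx (k : Fin r) (j : Fin (r + 1)) : j ≤ k.castSucc ∨ k.succ ≤ j := by
  rw [Fin.le_def, Fin.le_def, Fin.val_castSucc, Fin.val_succ]
  omega

/-- The bound on the segment. -/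
theorem maj_le (hG : Good s μ P) (k : Fin r) {D : ℝ} (hD : 0 ≤ D) :
    ∃ K : ℝ, 0 ≤ K ∧ ∀ t : ℝ, 0 < t → t < 1 →
      maj s μ D (s k.castSucc + t * (s k.succ - s k.castSucc)) ≤
        K * (t ^ (-(μ k.castSucc)) * (1 - t) ^ (-(μ k.succ))) := by
  classical
  set a := s k.castSucc with ha
  set b := s k.succ with hb
  set d := b - a with hd
  have hlt : k.castSucc < k.succ := Fin.castSucc_lt_succ
  have hab : a.im < b.im := hG.im hlt
  have hks : k.succ ∈ (Finset.univ : Finset (Fin (r + 1))).erase k.castSucc :=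
    Finset.mem_erase.2 ⟨hlt.ne', Finset.mem_univ _⟩
  let c : Fin (r + 1) → ℝ := fun j => if j < k.castSucc then a.im - (s j).im else (s j).im - b.im
  set Q : ℝ := ∏ j ∈ ((Finset.univ : Finset (Fin (r + 1))).erase k.castSucc).erase k.succ,
    (c j) ^ (-(μ j)) with hQ
  have hcase : ∀ j ∈ ((Finset.univ : Finset (Fin (r + 1))).erase k.castSucc).erase k.succ,
      j < k.castSucc ∨ k.succ < j := by
    intro j hj
    rw [Finset.mem_erase, Finset.mem_erase] at hj
    rcases idx k j with h | h
    · exact Or.inl (lt_of_le_of_ne h hj.2.1)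
    · exact Or.inr (lt_of_le_of_ne h (Ne.symm hj.1))
  have hc : ∀ j ∈ ((Finset.univ : Finset (Fin (r + 1))).erase k.castSucc).erase k.succ,
      0 < c j := by
    intro j hj
    rcases hcase j hj with h | h
    · have h1 : (s j).im < a.im := hG.im h
      show 0 < if j < k.castSucc then a.im - (s j).im else (s j).im - b.im
      rw [if_pos h]
      linarith
    · have h1 : b.im < (s j).im := hG.im h
      show 0 < if j < k.castSucc then a.im - (s j).im else (s j).im - b.im
      rw [if_neg (not_lt.2 (hlt.le.trans h.le))]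
      linarith
  have hQ0 : 0 ≤ Q := Finset.prod_nonneg fun j hj => Real.rpow_nonneg (hc j hj).le _
  refine ⟨(1 + ‖a‖ + ‖d‖) ^ D * (‖d‖ ^ (-(μ k.castSucc)) * (‖d‖ ^ (-(μ k.succ)) * Q)),
    by positivity, fun t ht ht1 => ?_⟩
  have e1 : ‖a + t * d - a‖ = t * ‖d‖ := by
    rw [add_sub_cancel_left, norm_mul, Complex.norm_real, Real.norm_of_nonneg ht.le]
  have e2 : ‖a + t * d - b‖ = (1 - t) * ‖d‖ := by
    have h1 : a + t * d - b = -(((1 - t : ℝ) : ℂ) * d) := by
      rw [hd]
      push_cast
      ring
    rw [h1, norm_neg, norm_mul, Complex.norm_real, Real.norm_of_nonneg (by linarith)]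
  have e3 : (1 + ‖a + t * d‖) ^ D ≤ (1 + ‖a‖ + ‖d‖) ^ D := by
    refine Real.rpow_le_rpow (by positivity) ?_ hD
    have h1 := norm_add_le a (t * d)
    rw [norm_mul, Complex.norm_real, Real.norm_of_nonneg ht.le] at h1
    have h2 : t * ‖d‖ ≤ ‖d‖ := by
      have := norm_nonneg d
      nlinarith
    linarith
  have him : (a + t * d).im = a.im + t * (b.im - a.im) := by
    rw [seg_im, hd, Complex.sub_im]
  have e4 : ∏ j ∈ ((Finset.univ : Finset (Fin (r + 1))).erase k.castSucc).erase k.succ,
      ‖a + t * d - s j‖ ^ (-(μ j)) ≤ Q := by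
    refine Finset.prod_le_prod (fun j _ => Real.rpow_nonneg (norm_nonneg _) _) fun j hj => ?_
    refine Real.rpow_le_rpow_of_nonpos (hc j hj) ?_ (by have := hG.pos j; linarith)
    have h0 := Complex.abs_im_le_norm (a + t * d - s j)
    rw [Complex.sub_im, him] at h0
    rcases hcase j hj with h | h
    · show (if j < k.castSucc then a.im - (s j).im else (s j).im - b.im) ≤ _
      rw [if_pos h]
      have h2 := le_abs_self (a.im + t * (b.im - a.im) - (s j).im)
      nlinarith
    · show (if j < k.castSucc then a.im - (s j).im else (s j).im - b.im) ≤ _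
      rw [if_neg (not_lt.2 (hlt.le.trans h.le))]
      have h2 := neg_le_abs (a.im + t * (b.im - a.im) - (s j).im)
      nlinarith
  have e5 : maj s μ D (a + t * d) = (1 + ‖a + t * d‖) ^ D * ((t * ‖d‖) ^ (-(μ k.castSucc)) *
      (((1 - t) * ‖d‖) ^ (-(μ k.succ)) *
        ∏ j ∈ ((Finset.univ : Finset (Fin (r + 1))).erase k.castSucc).erase k.succ,
          ‖a + t * d - s j‖ ^ (-(μ j)))) := by
    unfold maj
    rw [← Finset.mul_prod_erase Finset.univ _ (Finset.mem_univ k.castSucc),
      ← Finset.mul_prod_erase _ _ hks, ← ha, ← hb, e1, e2]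
  rw [e5, Real.mul_rpow ht.le (norm_nonneg d), Real.mul_rpow (by linarith) (norm_nonneg d)]
  have p1 : 0 ≤ t ^ (-(μ k.castSucc)) := Real.rpow_nonneg ht.le _
  have p2 : 0 ≤ (1 - t) ^ (-(μ k.succ)) := Real.rpow_nonneg (by linarith) _
  have p3 : 0 ≤ ‖d‖ ^ (-(μ k.castSucc)) := Real.rpow_nonneg (norm_nonneg d) _
  have p4 : 0 ≤ ‖d‖ ^ (-(μ k.succ)) := Real.rpow_nonneg (norm_nonneg d) _
  have p5 : 0 ≤ (1 + ‖a‖ + ‖d‖) ^ D := by positivity
  refine (mul_le_mul e3 (mul_le_mul_of_nonneg_left (mul_le_mul_of_nonneg_left e4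
    (mul_nonneg p2 p4)) (mul_nonneg p1 p3)) ?_ p5).trans (le_of_eq (by ring))
  refine mul_nonneg (mul_nonneg p1 p3) (mul_nonneg (mul_nonneg p2 p4) ?_)
  exact Finset.prod_nonneg fun j _ => Real.rpow_nonneg (norm_nonneg _) _

/-- The integrand is integrable. -/
theorem integ (hG : Good s μ P) (k : Fin r) :
    IntervalIntegrable (fun t : ℝ => (s k.succ - s k.castSucc) *
      frm s μ P (s k.castSucc + t * (s k.succ - s k.castSucc))) volume 0 1 := by
  by_cases hP : P = 0
  · have h : (fun t : ℝ => (s k.succ - s k.castSucc) *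
        frm s μ P (s k.castSucc + t * (s k.succ - s k.castSucc))) = fun _ => 0 := by
      funext x
      simp [frm, hP]
    rw [h]
    exact intervalIntegrable_const
  obtain ⟨C, D, hD, -, hC, hb, -⟩ := tC2 s μ P hG hP
  obtain ⟨K, hK, hle⟩ := maj_le hG k hD
  have hB := Complex.betaIntegral_convergent (u := ((1 - μ k.castSucc : ℝ) : ℂ))
    (v := ((1 - μ k.succ : ℝ) : ℂ))
    (by rw [Complex.ofReal_re]; linarith [hG.lt k.castSucc])
    (by rw [Complex.ofReal_re]; linarith [hG.lt k.succ])
  refine (hB.norm.const_mul (‖s k.succ - s k.castSucc‖ * (C * K))).mono_fun' ?_ ?_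
  · refine Measurable.aestronglyMeasurable ?_
    refine Measurable.const_mul ?_ _
    exact (D3_meas s μ P).comp
      (measurable_const.add (Complex.measurable_ofReal.mul measurable_const))
  · filter_upwards [ae_restrict_mem measurableSet_uIoc,
      ae_restrict_of_ae ((Set.countable_singleton (1 : ℝ)).ae_notMem volume)] with t ht ht1
    rw [Set.uIoc_of_le zero_le_one] at ht
    have h0 : 0 < t := ht.1
    have h1 : t < 1 := lt_of_le_of_ne ht.2 ht1
    have e1 : ‖(t : ℂ) ^ (((1 - μ k.castSucc : ℝ) : ℂ) - 1) *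
        (1 - (t : ℂ)) ^ (((1 - μ k.succ : ℝ) : ℂ) - 1)‖ =
        t ^ (-(μ k.castSucc)) * (1 - t) ^ (-(μ k.succ)) := by
      have h2 : (1 : ℂ) - (t : ℂ) = ((1 - t : ℝ) : ℂ) := by push_cast; ring
      rw [norm_mul, h2, Complex.norm_cpow_eq_rpow_re_of_pos h0,
        Complex.norm_cpow_eq_rpow_re_of_pos (by linarith), Complex.sub_re, Complex.sub_re,
        Complex.ofReal_re, Complex.ofReal_re, Complex.one_re]
      congr 2 <;> ring
    rw [e1, norm_mul, mul_assoc, mul_assoc]
    refine mul_le_mul_of_nonneg_left ?_ (norm_nonneg _)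
    exact (hb _).trans (mul_le_mul_of_nonneg_left (hle t h0 h1) hC)

end seg

end SegI

open SegI in
theorem tSegI : S_SegI := by
  intro r μ P s hG k
  have hab : (s k.castSucc).im < (s k.succ).im := hG.im Fin.castSucc_lt_succ
  have hder : ∀ t : ℝ, 0 < t → t < 1 →
      HasDerivAt (prm (frm s μ P)) (frm s μ P (s k.castSucc + t * (s k.succ - s k.castSucc)))
        (s k.castSucc + t * (s k.succ - s k.castSucc)) := by
    intro t ht ht1
    refine tD1 tC1 tC2 tC5 s μ P hG _ fun j hj => ?_
    exfalso
    rw [seg_im, Complex.sub_im] at hj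
    rcases idx k j with h | h
    · have h1 : (s j).im ≤ (s k.castSucc).im := hG.im.monotone h
      nlinarith
    · have h1 : (s k.succ).im ≤ (s j).im := hG.im.monotone h
      nlinarith
  have hlin : Continuous fun t : ℝ => s k.castSucc + (t : ℂ) * (s k.succ - s k.castSucc) :=
    continuous_const.add (Complex.continuous_ofReal.mul continuous_const)
  have e0 : s k.castSucc + ((0 : ℝ) : ℂ) * (s k.succ - s k.castSucc) = s k.castSucc := by simp
  have e1 : s k.castSucc + ((1 : ℝ) : ℂ) * (s k.succ - s k.castSucc) = s k.succ := by simp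
  have h := intervalIntegral.integral_eq_sub_of_hasDerivAt_of_le
    (f := fun t : ℝ => prm (frm s μ P) (s k.castSucc + t * (s k.succ - s k.castSucc)))
    (f' := fun t : ℝ => (s k.succ - s k.castSucc) *
      frm s μ P (s k.castSucc + t * (s k.succ - s k.castSucc)))
    (zero_le_one' ℝ) ?_ ?_ (integ hG k)
  · rw [sgi, h, e0, e1, prm_s, prm_s]
  · intro t ht
    refine ContinuousAt.continuousWithinAt ?_
    refine ContinuousAt.comp (g := prm (frm s μ P)) (x := t) (f := fun t : ℝ =>
      s k.castSucc + (t : ℂ) * (s k.succ - s k.castSucc)) ?_ hlin.continuousAt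
    show ContinuousAt (prm (frm s μ P)) (s k.castSucc + (t : ℂ) * (s k.succ - s k.castSucc))
    rcases ht.1.eq_or_lt with h0 | h0
    · rw [← h0, e0]
      exact cont hG _
    rcases ht.2.eq_or_lt with h1 | h1
    · rw [h1, e1]
      exact cont hG _
    exact (hder t h0 h1).continuousAt
  · intro t ht
    have h1 : HasDerivAt (fun z : ℂ => s k.castSucc + z * (s k.succ - s k.castSucc))
        (s k.succ - s k.castSucc) (t : ℂ) := by
      have h2 := ((hasDerivAt_id (t : ℂ)).mul_const (s k.succ - s k.castSucc)).const_add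
        (s k.castSucc)
      rw [one_mul] at h2
      exact h2
    have h2 := (HasDerivAt.comp (t : ℂ) (hder t ht.1 ht.2) h1).comp_ofReal
    rw [mul_comm] at h2
    exact h2

end SECR
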