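import Pool.Agent.Lib.SE.CR.Cut
import Pool.Agent.Lib.SE.CR.Crd
import Pool.Agent.Lib.SE.CR.Al
import Pool.Agent.Lib.SE.CR.Crs
import Pool.Agent.Lib.SE.CR.Lv
import Pool.Agent.Lib.SE.CR.Idt
import Pool.Agent.Lib.SE.CR.Ind
import Pool.Agent.Lib.SE.CR.EndC
import Pool.Agent.Lib.SE.CR.EndA
import Pool.Agent.Lib.SE.CR.SegI
import Pool.Agent.Lib.SE.CR.Hol

/-!
# PROJECT SE-CR: for branch points outside a meagre subset of `ℂ^(r+1)` the commutant of `Z` in `End⁰(T)`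
is `ℚ(Z)` (no hypotheses)
-/

set_option autoImplicit false

namespace SECR

/-- Increasing imaginary parts. -/
theorem exc_strictMono (m r : ℕ) (b : Fin (r + 1) → ℕ) (hr : 2 ≤ r)
    (hu : ∃ u < m, u.Coprime m ∧ SEB.sg m r b u = 1) :
    IsMeagre {s : Fin (r + 1) → ℂ | (StrictMono fun j => (s j).im) ∧ Exc m r b s} :=
  tEndC tCut tAl tCrs tIdt tCrd tLv tInd m r b hr hu

/-- All complex branch points, equal exponents. -/
theorem exc_one (m r : ℕ) (hr : 2 ≤ r)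
    (hu : ∃ u < m, u.Coprime m ∧ SEB.sg m r (fun _ => 1) u = 1) :
    IsMeagre {s : Fin (r + 1) → ℂ | Exc m r (fun _ => 1) s} :=
  tEndA m r (exc_strictMono m r (fun _ => 1) hr hu)

end SECR
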