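import Pool.Agent.Lib.SE.CR.Spec

/-! PROJECT SE-CR, module Cut: the cut plane is open and connected. -/

set_option autoImplicit false

open MeasureTheory Filter Topology Module SEJ SEP SEB HC HC.SE

noncomputable section

namespace SECR

namespace Cut

lemma cutp_open {k : ℕ} (s : Fin k → ℂ) : IsOpen (cutp s) := by
  have h : cutp s = ⋂ j, {x : ℂ | x.im = (s j).im ∧ x.re ≤ (s j).re}ᶜ := by
    ext x
    simp only [cutp, Set.mem_ofPred_eq, Set.mem_iInter, Set.mem_compl_iff, not_and, not_le]
  rw [h]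
  apply isOpen_iInter_of_finite
  intro j
  rw [isOpen_compl_iff]
  exact (isClosed_eq Complex.continuous_im continuous_const).inter
    (isClosed_le Complex.continuous_re continuous_const)

/-- a horizontal ray -/
def ray (y : ℂ) : Set ℂ := {z | z.im = y.im ∧ y.re ≤ z.re}

lemma ray_pre (y : ℂ) : IsPreconnected (ray y) := by
  apply Convex.isPreconnected
  intro z hz w hw a b ha hb hab
  simp only [ray, Set.mem_ofPred_eq] at hz hw ⊢
  obtain ⟨z1, z2⟩ := hz
  obtain ⟨w1, w2⟩ := hw
  constructor
  · simp only [Complex.add_im, Complex.real_smul, Complex.mul_im, Complex.ofReal_re,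
      Complex.ofReal_im, zero_mul, add_zero, z1, w1]
    rw [← add_mul, hab, one_mul]
  · simp only [Complex.add_re, Complex.real_smul, Complex.mul_re, Complex.ofReal_re,
      Complex.ofReal_im, zero_mul, sub_zero]
    have h1 := mul_le_mul_of_nonneg_left z2 ha
    have h2 := mul_le_mul_of_nonneg_left w2 hb
    have h3 : a * y.re + b * y.re = y.re := by rw [← add_mul, hab, one_mul]
    linarith

lemma cutp_pre {k : ℕ} (s : Fin k → ℂ) : IsPreconnected (cutp s) := by
  obtain ⟨R, hR⟩ : ∃ R : ℝ, ∀ j, (s j).re < R := by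
    refine ⟨1 + ∑ j, |(s j).re|, fun j => ?_⟩
    have h1 : |(s j).re| ≤ ∑ j, |(s j).re| :=
      Finset.single_le_sum (f := fun j => |(s j).re|) (fun i _ => abs_nonneg _) (Finset.mem_univ j)
    have h2 := le_abs_self (s j).re
    linarith
  apply isPreconnected_of_forall (R : ℂ)
  intro y hy
  refine ⟨{c : ℂ | R ≤ c.re} ∪ ray y, ?_, ?_, ?_, ?_⟩
  · rintro z (hz | hz)
    · intro j _
      exact lt_of_lt_of_le (hR j) hz
    · intro j hj
      have h1 := hy j (hz.1.symm.trans hj)
      exact lt_of_lt_of_le h1 hz.2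
  · left
    simp
  · right
    exact ⟨rfl, le_rfl⟩
  · refine IsPreconnected.union (⟨max R y.re, y.im⟩ : ℂ) ?_ ?_
      (convex_halfSpace_re_ge R).isPreconnected (ray_pre y)
    · exact le_max_left R y.re
    · exact ⟨rfl, le_max_right R y.re⟩

end Cut

theorem tCut : S_Cut := fun s => ⟨Cut.cutp_open s, Cut.cutp_pre s⟩

end SECR
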