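import Pool.Agent.Lib.SE.P.Spec
import Pool.Agent.Lib.SE.J.Spec2
import Pool.Agent.Lib.SE.Big.VG

/-!
# PROJECT SE-CR: complex branch points outside a meagre set: the commutant of `Z` is `ℚ(Z)`

Every module: file `SE/CR/Xyz.lean`, `theorem tXyz : S_Xyz` (with the hypotheses named in the
statement), import `Pool.Agent.Lib.SE.CR.Spec` and what you need (SE/J, SE/P, SE/Big are proved, e.g.
`SEJ.xE2`, `SEJ.xD1`, `SEJ.xN11` of SE/J/Main.lean, `SEP.tP3a`, `SEP.s_P3` of SE/P/GAll.lean).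
-/

set_option autoImplicit false

open MeasureTheory Filter Topology Module SEJ SEP SEB HC HC.SE

noncomputable section

namespace SECR

/-- The plane minus the closed rays `s_j - [0, ∞)`. -/
def cutp {k : ℕ} (s : Fin k → ℂ) : Set ℂ := {x | ∀ j, x.im = (s j).im → (s j).re < x.re}

/-- **Cut**. PROOF. The rays are closed. Connected: the half plane `Re x > max Re s_j` is convex
(and nonempty), and the horizontal segment from `x` to a point of it stays in the set
(`JoinedIn`, `IsPathConnected`). -/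
def S_Cut : Prop := ∀ {k : ℕ} (s : Fin k → ℂ), IsOpen (cutp s) ∧ IsPreconnected (cutp s)

section

variable {T : AV} {m r : ℕ} {s : Fin (r + 1) → ℂ} {b : Fin (r + 1) → ℕ}

/-- Coordinates on the tangent space of `T`: the differentials of the first kind. -/
structure Crd (N : New T m s b) where
  e : T.V ≃ₗ[ℂ] (Ix m b → ℂ)
  om : ∀ x ∉ N.γ.S, ∀ y, N.γ.P (x, y) = 0 → ∀ p : Ix m b,
    e (N.γ.ω x y) p = x ^ ex p * y ^ ch p / ∏ j, (x - s j) ^ (1 + ch p * b j / m)
  Z : ∀ v (p : Ix m b), e (N.Z v) p = ze m (ch p) * e v p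

/-- The primitive of `ω(x, y0 x)` on the cut plane which vanishes at `+∞`. -/
def Fv {N : New T m s b} (c : Crd N) (x : ℂ) : T.V :=
  c.e.symm fun p : Ix m b => prm (frm s (mu m b (ch p)) (Polynomial.X ^ ex p)) x

/-- Its value at `s_j`. -/
def Pv {N : New T m s b} (c : Crd N) (j : Fin (r + 1)) : T.V :=
  c.e.symm fun p : Ix m b => Pp s (frm s (mu m b (ch p)) (Polynomial.X ^ ex p)) j

/-- `α` at the points `(x, ζ^f y0 x)` is `Z^f F + C` modulo the lattice. -/
def IsC (N : New T m s b) (c : Crd N) (f : ℕ) (C : T.V) : Prop :=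
  ∀ x ∈ cutp s, N.γ.α x (ze m 1 ^ f * y0 m s b x) - (N.Z ^ f) (Fv c x) - C ∈ T.L

end

/-- **Crd**. PROOF. The forms `B_p` of `New.dif` (`u = ch p`, `i = ex p`); `e v p = B_p v` (real and
complex linear). They are linearly independent on the span of the values `γ.ω x y`: replace `y` by
`ζ^k y` (separates the `u`), then `∑_i c_i x^i = 0` for all `x ∉ S` (infinitely many; `y ≠ 0` there);
their number is `dim T` (SEJ `S_N1b`, `N.dim`), so `e` is bijective. `New.equ`: `B_p (Z w) = ζ^u B_p w` for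
the values `w` of `ω`, which span `T.V` (else a nonzero form kills them). See also the proof of
`S_Pnew` (SE/Big/Pnew.lean), `S_Bf` (SE/Big/Bf.lean), `tN1`, `tN1b` (SE/J). -/
def S_Crd : Prop := ∀ {T : AV} {m r : ℕ} {s : Fin (r + 1) → ℂ} {b : Fin (r + 1) → ℕ},
  IsCov m s b → ∀ N : New T m s b, Nonempty (Crd N)

/-- **Al**. PROOF. `x₀ ∈ cutp s`, `y₀ = ζ^f y0(x₀)`: `Crv.map` gives `η`, `g` near `x₀`. `η` and `ζ^f y0` are
continuous at `x₀` (`y0` is continuous on `cutp s`: every `x - s_j` is in the slit plane), have the same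
`m`-th power `≠ 0` and the same value at `x₀`: equal near `x₀` (`y0^m = ∏ (x - s_j)^(b_j)`; the
quotient is an `m`-th root of unity near `1`). `g' = ω(x, ζ^f y0) = Z^f ω(x, y0)` (`N.equ`), and in the
coordinates `ω(x, y0) = (frm_p x)_p` (SEJ `S_N10` style: `y0^u / ∏ (x - s_j)^(1 + [u b_j / m]) = xi`),
so `g - Z^f F` has derivative `0` near `x₀` (`SEJ.xD1`): constant on a ball. So the class of
`α(x, ζ^f y0) - Z^f F` modulo `L` is locally constant on `cutp s`, which is preconnected (S_Cut):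
`IsPreconnected.constant_of_mapsTo` or an open-closed argument for `{x | value ≡ value at x₁}`. -/
def S_Al : Prop := S_Cut → ∀ {T : AV} {m r : ℕ} {s : Fin (r + 1) → ℂ} {b : Fin (r + 1) → ℕ},
  IsCov m s b → (StrictMono fun j => (s j).im) → ∀ (N : New T m s b) (c : Crd N) (f : ℕ),
  ∃ C : T.V, IsC N c f C

/-- **Crs**: crossing the ray `j`. PROOF. `x₀` on the ray (`Im x₀ = Im s_j`, `Re x₀ < Re s_j`),
`y₀ = ζ^f y0(x₀)` (`y0` with `arg = π`: the value from above). `Crv.map`: `η`, `g`. Near `x₀`: `η = ζ^f y0`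
for `Im x ≥ Im s_j`, `η = ζ^(f + b_j) y0` for `Im x < Im s_j` (the continuous branch through `x₀` is
`(-(x - s_j))^(b_j / m) exp (π i b_j / m) ∏_(l ≠ j) …`, see SE/J/N12.lean). `G_p` from `SEJ.xN11`: above
`G_p = prm`, derivative `frm`; below `λ G_p = prm - (1 - λ) Pp_j`, derivative `λ⁻¹ frm`,
`λ = ze^(- b_j)` at the character of `p` (SEJ `S_N0`). `g - e⁻¹(ze^f G)` is constant near `x₀`. Above
(points of `cutp s` near `x₀`): the constant is `C` modulo `L`; below it is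
`C' + Z^(f + b_j) F - Z^f (Z^(b_j) F + (1 - Z^(b_j)) P_j)`. -/
def S_Crs : Prop := ∀ {T : AV} {m r : ℕ} {s : Fin (r + 1) → ℂ} {b : Fin (r + 1) → ℕ},
  IsCov m s b → (StrictMono fun j => (s j).im) → ∀ (N : New T m s b) (c : Crd N) (f : ℕ)
  (j : Fin (r + 1)) (C C' : T.V), IsC N c f C → IsC N c (f + b j) C' →
    C' - C - (N.Z ^ f) (Pv c j - (N.Z ^ b j) (Pv c j)) ∈ T.L

/-- **Lv**: lattice vectors. PROOF. `C_f` from S_Al. S_Crs for `(b_l, k)`, `(0, k)`:
`(Z^(b_l) - 1)(1 - Z^(b_k)) P_k ≡ C_(b_l + b_k) - C_(b_l) - C_(b_k) + C_0`, symmetric in `k`, `l`; so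
`v = (Z^(b_l) - 1)(1 - Z^(b_k)) (P_k - P_l) ∈ L` (note `(Z^a - 1)(1 - Z^c) = (Z^c - 1)(1 - Z^a)`); coordinates by
`Crd.Z`. -/
def S_Lv : Prop := S_Cut → S_Al → S_Crs → ∀ {T : AV} {m r : ℕ} {s : Fin (r + 1) → ℂ}
  {b : Fin (r + 1) → ℕ}, IsCov m s b → (StrictMono fun j => (s j).im) → ∀ (N : New T m s b)
  (c : Crd N) (k l : Fin (r + 1)), ∃ v ∈ T.L, ∀ p : Ix m b,
    c.e v p = (ze m (ch p) ^ b l - 1) * (1 - ze m (ch p) ^ b k) *
      (Pp s (frm s (mu m b (ch p)) (Polynomial.X ^ ex p)) k -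
        Pp s (frm s (mu m b (ch p)) (Polynomial.X ^ ex p)) l)

/-- **Idt**: identity theorem. PROOF. `U = {s | Im s_j strictly increasing}` is open and convex. Let the
relation hold near `s₀ ∈ U`; for `s₁ ∈ U` the function `t ↦ ∑ c_j per(s₀ + t (s₁ - s₀))_j` is
holomorphic on the open convex set `{t : ℂ | s₀ + t (s₁ - s₀) ∈ U} ∋ 0, 1` (`tP3a`), `0` near `0`, so `0`
at `1` (`AnalyticOnNhd.eqOn_zero_of_preconnected_of_eventuallyEq_zero`). So it holds on `U`. By `s_P3`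
at `s = i β`, `β_j = j`, the form `∑ c_j t_j` vanishes at all points of the hyperplane
`W : ∑ (1 - λ_j) t_j = 0` near `per(i β)`, so on `W` (a linear space), so `c` is a multiple of
`(1 - λ_j)`. -/
def S_Idt : Prop := ∀ {k : ℕ} (μ : Fin k → ℝ), Mu μ → ∀ c : Fin k → ℂ,
  (interior {s : Fin k → ℂ | (StrictMono fun j => (s j).im) ∧ ∑ j, c j * per μ s j = 0}).Nonempty →
    ∃ a : ℂ, ∀ j, c j = a * (1 - lam μ j)

/-- **Ind**. PROOF. The set is the union over the countably many `c ≠ 0` with algebraic coordinates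
(`Algebraic.countable`) of `F_c = {s ∈ U | ∑_(k < r) c_k (per_k - λ_(k+1) per_(k+1)) = 0}`, relatively closed
in `U` (`per` is continuous on `U`: `tP3a`). If `F_c` has an interior point, S_Idt:
`c_j - λ_j c_(j-1) = a (1 - λ_j)` for `j = 0, …, r` (`c_(-1) = c_r = 0`), so `c_j = a (1 - λ_0 ⋯ λ_j)` by
induction and `a (1 - ∏ λ_j) = 0`, `∏ λ_j = exp (2 π i ∑ μ_j) ≠ 1`: `a = 0`, `c = 0`. A relatively closed
subset of an open set without interior points is nowhere dense. -/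
def S_Ind : Prop := S_Idt → ∀ {r : ℕ} (μ : Fin (r + 1) → ℝ), Mu μ → (∀ n : ℤ, ∑ j, μ j ≠ n) →
  (∀ j, IsAlgebraic ℚ (lam μ j)) →
  IsMeagre {s : Fin (r + 1) → ℂ | (StrictMono fun j => (s j).im) ∧
    ¬ AInd fun k : Fin r => per μ s k.castSucc - lam μ k.succ * per μ s k.succ}

/-- `s` is an exception: for some `T` the commutant of `Z` is bigger than `ℚ(Z)`. -/
def Exc (m r : ℕ) (b : Fin (r + 1) → ℕ) (s : Fin (r + 1) → ℂ) : Prop :=
  ¬ ∀ (T : AV) (_ : IsCov m s b) (N : New T m s b) (D : Cyc T m), D.Z = N.Z → EndZ D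

/-- **EndC**. PROOF. `μ = mu m b u`: `Mu` (`u b_j % m` is between `1` and `m - 1`; `sg = 1` gives
`∑ (u b_j % m) < m r`, so `∑ μ_j > 1`), `∑ μ_j` no integer (`m ∤ u ∑ b_j`), `lam μ j = (ze m u ^ b_j)⁻¹`
(SEJ `tN0`). Outside the meagre set of S_Ind: `B = e · p₀`, `p₀ = (u, 0)`, `B ∈ Ws10 D u` (`Crd.Z`); the
vectors of S_Lv for `(k, k + 1)`: `B v_k = κ_k (Pp_k - Pp_(k+1)) = κ_k (per_k - λ_(k+1) per_(k+1))` (`SEJ.xE2`;
`frm s μ (X ^ 0) = xi s μ`), `κ_k` algebraic, not zero: `AInd.mul` (SE/Big/Asm3.lean), `S_Per`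
(SE/Big/Per.lean), `D.p u = 1` by `S_Pnew`. -/
def S_EndC : Prop := S_Crd → S_Lv → S_Ind → ∀ (m r : ℕ) (b : Fin (r + 1) → ℕ), 2 ≤ r →
  (∃ u < m, u.Coprime m ∧ sg m r b u = 1) →
  IsMeagre {s : Fin (r + 1) → ℂ | (StrictMono fun j => (s j).im) ∧ Exc m r b s}

/-- **EndA**: all complex branch points, equal exponents. PROOF. If `Exc m r 1 s` then `s` is injective
(IsCov). If all imaginary parts are different, some permutation `σ` makes them increasing, and
`New T m s 1 → New T m (s ∘ σ) 1` (the same `Z`, `γ`; products over `j` are reindexed), so `s ∘ σ` is in the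
first set; `IsMeagre.preimage_of_isOpenMap` for `s ↦ s ∘ σ`. The set `Im s_i = Im s_j` (`i ≠ j`) is
closed without interior points. -/
def S_EndA : Prop := ∀ m r : ℕ,
  IsMeagre {s : Fin (r + 1) → ℂ | (StrictMono fun j => (s j).im) ∧ Exc m r (fun _ => 1) s} →
  IsMeagre {s : Fin (r + 1) → ℂ | Exc m r (fun _ => 1) s}

end SECR
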