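import Pool.Agent.Lib.SE.J.Spec
import Pool.Agent.Lib.SE.P.Spec

/-!
# PROJECT SE-CR, layer (H): the integrals over the segments `s_k s_(k+1)` are holomorphic in `s`
-/

set_option autoImplicit false

open MeasureTheory Filter Topology SEJ

noncomputable section

namespace SECR

/-- `∫_(s_k)^(s_(k+1)) P(x) ∏ (x - s_j)^(-μ_j) dx` over the straight segment, principal branches. -/
def sgi {r : ℕ} (μ : Fin (r + 1) → ℝ) (P : Polynomial ℂ) (s : Fin (r + 1) → ℂ) (k : Fin r) : ℂ :=
  ∫ t in (0 : ℝ)..1, (s k.succ - s k.castSucc) *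
    frm s μ P (s k.castSucc + t * (s k.succ - s k.castSucc))

/-- **SegI**. PROOF. `prm (frm s μ P)` has the derivative `frm s μ P` at the inner points of the segment
(`SEJ.xD1`: their imaginary part is no `Im s_j`). It is continuous at the end points along the segment,
with values `Pp_k`, `Pp_(k+1)`: dominated convergence in `prm f x = - ∫_(t > 0) f(x + t) dt` (bound:
`F` of `S_A2` as in D3; `x + t - s_j → s_k + t - s_j`, all factors continuous as `s_k + t - s_j` is
not on the cut for `t > 0`). `intervalIntegral.integral_eq_sub_of_hasDerivAt_of_tendsto` (the integrand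
is integrable: `|frm| ≤ C t^(-μ_k) (1 - t)^(-μ_(k+1))`). -/
def S_SegI : Prop := ∀ {r : ℕ} (μ : Fin (r + 1) → ℝ) (P : Polynomial ℂ) (s : Fin (r + 1) → ℂ),
  Good s μ P → ∀ k : Fin r,
    sgi μ P s k = Pp s (frm s μ P) k.succ - Pp s (frm s μ P) k.castSucc

/-- **Hol**. PROOF. For `s` with increasing imaginary parts, `d = s_(k+1) - s_k` (`Im d > 0`),
`x = s_k + t d`: `(x - s_k)^(-μ_k) = t^(-μ_k) d^(-μ_k)`,
`(x - s_(k+1))^(-μ_(k+1)) = (1 - t)^(-μ_(k+1)) (-d)^(-μ_(k+1))`, the other factors are holomorphic in `s`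
and bounded (`Im (x - s_j) ≠ 0`, bounded below for `t ∈ [0, 1]`, locally uniformly in `s`). So the
integrand is `t^(-μ_k) (1 - t)^(-μ_(k+1))` (integrable) times a function holomorphic in `s`, continuous in
`(s, t)`: `hasFDerivAt_integral_of_dominated_of_fderiv_le`, or a general lemma: for compact `[0, 1]`,
an integrable weight `w` and `G(s, t)` with `fderiv` in `s` continuous in `(s, t)`. -/
def S_Hol : Prop := ∀ {r : ℕ} (μ : Fin (r + 1) → ℝ) (P : Polynomial ℂ),
  (∀ j, 0 < μ j ∧ μ j < 1) → ∀ k : Fin r,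
    DifferentiableOn ℂ (fun s => sgi μ P s k) {s | StrictMono fun j => (s j).im}

end SECR
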